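import Mathlib
import Pool.Agent.MP_8f5299_co.Defs

section

namespace Pool.Agent.MP_8f5299_co

open CoxeterSystem

section Form

variable {B : Type*} [Fintype B] [DecidableEq B] (M : CoxeterMatrix B)

noncomputable def kap (i j : B) : ℝ := Real.cos (Real.pi / (M i j : ℝ))

noncomputable def bil : (B → ℝ) →ₗ[ℝ] (B → ℝ) →ₗ[ℝ] ℝ :=
  Matrix.toBilin' (Matrix.of fun i j => -kap M i j)

def al (i : B) : B → ℝ := Pi.single i 1

omit [Fintype B] [DecidableEq B] in
lemma kap_symm (i j : B) : kap M i j = kap M j i := by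
  unfold kap; rw [M.symmetric i j]

omit [Fintype B] [DecidableEq B] in
lemma kap_self (i : B) : kap M i i = -1 := by
  unfold kap; simp

lemma bil_al_al (i j : B) : bil M (al i) (al j) = -kap M i j := by
  unfold bil al
  rw [Matrix.toBilin'_single]; simp

lemma bil_symm (x y : B → ℝ) : bil M x y = bil M y x := by
  unfold bil
  rw [Matrix.toBilin'_apply, Matrix.toBilin'_apply, Finset.sum_comm]
  refine Finset.sum_congr rfl fun i _ => Finset.sum_congr rfl fun j _ => ?_
  simp [kap_symm M j i]; ring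

lemma bil_al_self (i : B) : bil M (al i) (al i) = 1 := by
  rw [bil_al_al, kap_self]; simp

noncomputable def rf (β : B → ℝ) : Module.End ℝ (B → ℝ) :=
  LinearMap.id - ((2 : ℝ) • (bil M).flip β).smulRight β

lemma rf_apply (β x : B → ℝ) : rf M β x = x - (2 * bil M x β) • β := by
  simp [rf]

lemma rf_self {β : B → ℝ} (h : bil M β β = 1) : rf M β β = -β := by
  rw [rf_apply, h]; module

lemma rf_neg (β : B → ℝ) : rf M (-β) = rf M β := by
  apply LinearMap.ext
  intro x
  simp [rf_apply]

lemma bil_rf {β : B → ℝ} (h : bil M β β = 1) (x y : B → ℝ) :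
    bil M (rf M β x) (rf M β y) = bil M x y := by
  simp only [rf_apply, map_sub, map_smul, LinearMap.sub_apply, LinearMap.smul_apply, h,
    smul_eq_mul]
  rw [bil_symm M β y]; ring

lemma rf_rf {β : B → ℝ} (h : bil M β β = 1) (x : B → ℝ) : rf M β (rf M β x) = x := by
  rw [rf_apply M β x, map_sub, map_smul, rf_self M h, rf_apply]; module

/-- Chebyshev-like sequence. -/
noncomputable def U (k : ℝ) : ℕ → ℝ
  | 0 => 0
  | 1 => 1
  | (n + 2) => 2 * k * U k (n + 1) - U k n

lemma U_sin (θ : ℝ) : ∀ n : ℕ, U (Real.cos θ) n * Real.sin θ = Real.sin (n * θ)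
  | 0 => by simp [U]
  | 1 => by simp [U]
  | (n + 2) => by
    have h1 := U_sin θ (n + 1)
    have h0 := U_sin θ n
    have e2 : ((n + 2 : ℕ) : ℝ) * θ = (n + 1 : ℕ) * θ + θ := by push_cast; ring
    have e0 : (n : ℝ) * θ = (n + 1 : ℕ) * θ - θ := by push_cast; ring
    rw [U, sub_mul, mul_assoc, h1, h0, e2, e0, Real.sin_add, Real.sin_sub]; ring

lemma U_one : ∀ n : ℕ, U 1 n = n
  | 0 => by simp [U]
  | 1 => by simp [U]
  | (n + 2) => by rw [U, U_one (n + 1), U_one n]; push_cast; ring

omit [Fintype B] [DecidableEq B] in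
lemma sin_pos_of {i j : B} (hij : i ≠ j) (h0 : M i j ≠ 0) :
    0 < Real.sin (Real.pi / (M i j : ℝ)) := by
  have h1 := M.off_diagonal i j hij
  have h2 : (2 : ℝ) ≤ (M i j : ℝ) := by
    have : 2 ≤ M i j := by omega
    exact_mod_cast this
  apply Real.sin_pos_of_pos_of_lt_pi
  · exact div_pos Real.pi_pos (by linarith)
  · rw [div_lt_iff₀ (by linarith)]; nlinarith [Real.pi_pos]

omit [Fintype B] [DecidableEq B] in
lemma U_nonneg {i j : B} (hij : i ≠ j) {n : ℕ} (hn : M i j = 0 ∨ n ≤ M i j) :
    0 ≤ U (kap M i j) n := by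
  by_cases h0 : M i j = 0
  · have : kap M i j = 1 := by simp [kap, h0]
    rw [this, U_one]; positivity
  · have hn' : n ≤ M i j := hn.resolve_left h0
    have hs := sin_pos_of M hij h0
    have h := U_sin (Real.pi / (M i j : ℝ)) n
    have hm : (0 : ℝ) < M i j := by positivity
    have : 0 ≤ Real.sin (n * (Real.pi / (M i j : ℝ))) := by
      apply Real.sin_nonneg_of_nonneg_of_le_pi
      · positivity
      · rw [← mul_div_assoc, div_le_iff₀ hm]
        have : (n : ℝ) ≤ M i j := by exact_mod_cast hn'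
        nlinarith [Real.pi_pos]
    rw [← h] at this
    exact nonneg_of_mul_nonneg_left this hs

lemma rf_al_al (i j : B) : rf M (al i) (al j) = al j + (2 * kap M i j) • al i := by
  rw [rf_apply, bil_al_al, kap_symm M j i]; module

lemma rf_al_self (i : B) : rf M (al i) (al i) = -al i := rf_self M (bil_al_self M i)

lemma pow_al_left (i j : B) (k : ℕ) :
    ((rf M (al i) * rf M (al j)) ^ k) (al i) =
      U (kap M i j) (2 * k + 1) • al i + U (kap M i j) (2 * k) • al j := by
  induction k with
  | zero => simp [U]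
  | succ k ih =>
    rw [pow_succ', Module.End.mul_apply, ih]
    have e1 : 2 * (k + 1) + 1 = (2 * k + 1) + 2 := by ring
    have e2 : 2 * (k + 1) = 2 * k + 2 := by ring
    have hA : U (kap M i j) (2 * k + 2) =
        2 * kap M i j * U (kap M i j) (2 * k + 1) - U (kap M i j) (2 * k) := rfl
    have hB : U (kap M i j) (2 * k + 1 + 2) =
        2 * kap M i j * U (kap M i j) (2 * k + 2) - U (kap M i j) (2 * k + 1) := rfl
    rw [e1, e2, hB, hA]
    simp only [Module.End.mul_apply, map_add, map_smul, rf_al_self, map_neg, rf_al_al M j i,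
      rf_al_al M i j, kap_symm M j i]
    module

lemma pow_al_right (i j : B) (k : ℕ) :
    ((rf M (al i) * rf M (al j)) ^ k) (al j) =
      (-U (kap M i j) (2 * k)) • al i +
        (U (kap M i j) (2 * k + 1) - 2 * kap M i j * U (kap M i j) (2 * k)) • al j := by
  induction k with
  | zero => simp [U]
  | succ k ih =>
    rw [pow_succ', Module.End.mul_apply, ih]
    have e1 : 2 * (k + 1) + 1 = (2 * k + 1) + 2 := by ring
    have e2 : 2 * (k + 1) = 2 * k + 2 := by ring
    have hA : U (kap M i j) (2 * k + 2) =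
        2 * kap M i j * U (kap M i j) (2 * k + 1) - U (kap M i j) (2 * k) := rfl
    have hB : U (kap M i j) (2 * k + 1 + 2) =
        2 * kap M i j * U (kap M i j) (2 * k + 2) - U (kap M i j) (2 * k + 1) := rfl
    rw [e1, e2, hB, hA]
    simp only [Module.End.mul_apply, map_add, map_smul, rf_al_self, map_neg, rf_al_al M j i,
      rf_al_al M i j, kap_symm M j i]
    module

lemma liftable : M.IsLiftable (fun i => rf M (al i)) := by
  intro i j
  by_cases hij : i = j
  · subst hij
    rw [M.diagonal, pow_one]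
    apply LinearMap.ext
    intro x
    simp [rf_rf M (bil_al_self M i)]
  by_cases h0 : M i j = 0
  · simp [h0]
  have hs := sin_pos_of M hij h0
  set θ := Real.pi / (M i j : ℝ) with hθ
  have hm : (M i j : ℝ) ≠ 0 := by positivity
  have hk : kap M i j = Real.cos θ := rfl
  have hU0 : U (kap M i j) (2 * M i j) = 0 := by
    have h := U_sin θ (2 * M i j)
    have : ((2 * M i j : ℕ) : ℝ) * θ = 2 * Real.pi := by
      push_cast; rw [hθ]; field_simp
    rw [this, Real.sin_two_pi] at h
    rw [hk]; exact (mul_eq_zero.mp h).resolve_right hs.ne'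
  have hU1 : U (kap M i j) (2 * M i j + 1) = 1 := by
    have h := U_sin θ (2 * M i j + 1)
    have : ((2 * M i j + 1 : ℕ) : ℝ) * θ = θ + 2 * Real.pi := by
      push_cast; rw [hθ]; field_simp; ring
    rw [this, Real.sin_add_two_pi] at h
    rw [hk]
    have := mul_right_cancel₀ hs.ne' (h.trans (one_mul _).symm)
    exact this
  have hi := pow_al_left M i j (M i j)
  have hj := pow_al_right M i j (M i j)
  rw [hU0, hU1] at hi hj
  simp only [one_smul, zero_smul, add_zero, neg_zero, mul_zero, sub_zero, zero_add] at hi hj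
  have hd : 1 - kap M i j ^ 2 ≠ 0 := by
    rw [hk]; have := Real.sin_sq_add_cos_sq θ; nlinarith
  apply LinearMap.ext
  intro z
  set a := bil M z (al i)
  set b := bil M z (al j)
  set κ := kap M i j
  set z0 := z - ((a + κ * b) / (1 - κ ^ 2)) • al i - ((b + κ * a) / (1 - κ ^ 2)) • al j with hz0
  have h1 : bil M z0 (al i) = 0 := by
    simp only [hz0, map_sub, map_smul, LinearMap.sub_apply, LinearMap.smul_apply, bil_al_self,
      bil_al_al, kap_symm M j i, smul_eq_mul]
    change a - _ - _ * -κ = 0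
    field_simp; ring
  have h2 : bil M z0 (al j) = 0 := by
    simp only [hz0, map_sub, map_smul, LinearMap.sub_apply, LinearMap.smul_apply, bil_al_self,
      bil_al_al, smul_eq_mul]
    change b - _ * -κ - _ = 0
    field_simp; ring
  have h3 : ∀ k : ℕ, ((rf M (al i) * rf M (al j)) ^ k) z0 = z0 := by
    intro k
    induction k with
    | zero => simp
    | succ k ih =>
      rw [pow_succ', Module.End.mul_apply, ih, Module.End.mul_apply, rf_apply M (al j), h2]
      simp [rf_apply, h1]
  have hz : z = z0 + ((a + κ * b) / (1 - κ ^ 2)) • al i + ((b + κ * a) / (1 - κ ^ 2)) • al j := by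
    rw [hz0]; module
  change ((rf M (al i) * rf M (al j)) ^ M i j) z = z
  conv_lhs => rw [hz]
  rw [map_add, map_add, map_smul, map_smul, hi, hj, h3, ← hz]

end Form

end Pool.Agent.MP_8f5299_co

end

section

namespace Pool.Agent.MP_8f5299_co

open CoxeterSystem

variable {B : Type*} [Fintype B] [DecidableEq B] {M : CoxeterMatrix B}
variable {W : Type*} [Group W] (cs : CoxeterSystem M W)

noncomputable def rho : W →* Module.End ℝ (B → ℝ) :=
  cs.lift ⟨fun i => rf M (al i), liftable M⟩

lemma rho_simple (i : B) : rho cs (cs.simple i) = rf M (al i) :=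
  cs.lift_apply_simple (liftable M) i

lemma rho_mul (a b : W) (x : B → ℝ) : rho cs (a * b) x = rho cs a (rho cs b x) := by
  rw [map_mul]; rfl

lemma rho_one (x : B → ℝ) : rho cs 1 x = x := by rw [map_one]; rfl

lemma rho_inv_apply (a : W) (x : B → ℝ) : rho cs a⁻¹ (rho cs a x) = x := by
  rw [← rho_mul, inv_mul_cancel, rho_one]

lemma rho_apply_inv (a : W) (x : B → ℝ) : rho cs a (rho cs a⁻¹ x) = x := by
  rw [← rho_mul, mul_inv_cancel, rho_one]

lemma bil_rho (w : W) (x y : B → ℝ) : bil M (rho cs w x) (rho cs w y) = bil M x y := by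
  induction w using cs.simple_induction_left with
  | one => simp
  | mul_simple_left w i ih =>
    rw [rho_mul, rho_mul, rho_simple, bil_rf M (bil_al_self M i), ih]

lemma rho_rf (w : W) (β x : B → ℝ) :
    rho cs w (rf M β x) = rf M (rho cs w β) (rho cs w x) := by
  rw [rf_apply, rf_apply, map_sub, map_smul, bil_rho]

lemma alt_apply {i j : B} (k : ℕ) :
    rho cs (cs.wordProd (alternatingWord i j k)) (al i) =
      U (kap M i j) (k + 1) • al (if Even k then i else j) +
        U (kap M i j) k • al (if Even k then j else i) := by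
  induction k with
  | zero => simp [alternatingWord, U]
  | succ k ih =>
    rw [alternatingWord_succ', wordProd_cons, rho_mul, ih, rho_simple]
    have hA : U (kap M i j) (k + 1 + 1) =
        2 * kap M i j * U (kap M i j) (k + 1) - U (kap M i j) k := rfl
    by_cases hk : Even k
    · have hk' : ¬ Even (k + 1) := by simp [hk, parity_simps]
      simp only [hk, hk', if_true, if_false, map_add, map_smul, rf_al_self, rf_al_al M j i,
        kap_symm M j i, hA]
      module
    · have hk' : Even (k + 1) := by simpa [parity_simps] using hk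
      simp only [hk, hk', if_true, if_false, map_add, map_smul, rf_al_self, rf_al_al M i j, hA]
      module

omit [Fintype B] in
lemma al_nonneg (i : B) : (0 : B → ℝ) ≤ al i := by
  intro j; unfold al; by_cases h : j = i
  · subst h; simp
  · simp [Pi.single_eq_of_ne h]

lemma pos_of_ascent : ∀ (n : ℕ) (w : W) (i : B), cs.length w = n →
    cs.length (w * cs.simple i) = cs.length w + 1 → 0 ≤ rho cs w (al i) := by
  intro n
  induction n using Nat.strong_induction_on with
  | _ n ih =>
  intro w i hn hw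
  by_cases h1 : w = 1
  · subst h1; rw [rho_one]; exact al_nonneg i
  obtain ⟨j, hj⟩ := cs.exists_rightDescent_of_ne_one h1
  rw [isRightDescent_iff] at hj
  have hij : i ≠ j := by rintro rfl; omega
  -- maximal k
  let P : ℕ → Prop := fun k => ∃ v, w = v * cs.wordProd (alternatingWord i j k) ∧
    cs.length w = cs.length v + k
  have hP1 : P 1 := ⟨w * cs.simple j, by simp [alternatingWord], by omega⟩
  have hPle : ∀ k, P k → k ≤ n := by rintro k ⟨v, -, hv⟩; omega
  classical
  set k := Nat.findGreatest P n with hk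
  have hPk : P k := Nat.findGreatest_spec (hPle 1 hP1) hP1
  have hk1 : 1 ≤ k := Nat.le_findGreatest (hPle 1 hP1) hP1
  have hmax : ¬ P (k + 1) := fun h =>
    Nat.findGreatest_is_greatest (Nat.lt_succ_self k) (hPle _ h) h
  obtain ⟨v, hv, hl⟩ := hPk
  have hkm : M i j = 0 ∨ k + 1 ≤ M i j := by
    by_contra hc
    push Not at hc
    have hnr := cs.not_isReduced_alternatingWord j i (m := k + 1)
      (by rw [M.symmetric]; exact hc.1) (by rw [M.symmetric]; omega)
    apply hnr
    unfold CoxeterSystem.IsReduced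
    have h2 := cs.length_wordProd_le (alternatingWord j i (k + 1))
    have h3 : w * cs.simple i = v * cs.wordProd (alternatingWord j i (k + 1)) := by
      rw [alternatingWord_succ, wordProd_concat, hv, mul_assoc]
    have h4 := cs.length_mul_le v (cs.wordProd (alternatingWord j i (k + 1)))
    rw [← h3] at h4
    rw [length_alternatingWord] at h2 ⊢
    omega
  have hA : cs.length (v * cs.simple (if Even k then j else i)) = cs.length v + 1 := by
    rcases cs.length_mul_simple v (if Even k then j else i) with h | h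
    · exact h
    · exfalso; apply hmax
      refine ⟨v * cs.simple (if Even k then j else i), ?_, by omega⟩
      rw [alternatingWord_succ', wordProd_cons, mul_assoc, simple_mul_simple_cancel_left, ← hv]
  have hB : cs.length (v * cs.simple (if Even k then i else j)) = cs.length v + 1 := by
    rcases cs.length_mul_simple v (if Even k then i else j) with h | h
    · exact h
    · exfalso
      obtain ⟨k', hk'⟩ : ∃ k', k = k' + 1 := ⟨k - 1, by omega⟩
      have e : (if Even k then i else j) = (if Even k' then j else i) := by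
        rw [hk']; by_cases he : Even k' <;> simp [he, parity_simps]
      have h3 : w = (v * cs.simple (if Even k then i else j)) *
          cs.wordProd (alternatingWord i j k') := by
        rw [e, mul_assoc, ← wordProd_cons, ← alternatingWord_succ', ← hk', ← hv]
      have h4 := cs.length_mul_le (v * cs.simple (if Even k then i else j))
        (cs.wordProd (alternatingWord i j k'))
      have h2 := cs.length_wordProd_le (alternatingWord i j k')
      rw [← h3] at h4
      rw [length_alternatingWord] at h2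
      omega
  have h5 := ih (cs.length v) (by omega) v _ rfl hA
  have h6 := ih (cs.length v) (by omega) v _ rfl hB
  rw [hv, rho_mul, alt_apply, map_add, map_smul, map_smul]
  have u1 : 0 ≤ U (kap M i j) (k + 1) := U_nonneg M hij hkm
  have u2 : 0 ≤ U (kap M i j) k := U_nonneg M hij (hkm.imp id (by omega))
  exact add_nonneg (smul_nonneg u1 h6) (smul_nonneg u2 h5)

lemma neg_of_descent {w : W} {i : B} (h : cs.length (w * cs.simple i) + 1 = cs.length w) :
    rho cs w (al i) ≤ 0 := by
  have := pos_of_ascent cs _ (w * cs.simple i) i rfl (by simp; omega)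
  rw [rho_mul, rho_simple, rf_al_self, map_neg] at this
  exact neg_nonneg.mp this

def IsRoot (β : B → ℝ) : Prop := ∃ w i, β = rho cs w (al i)

variable {cs}

lemma IsRoot.bil_self {β : B → ℝ} (h : IsRoot cs β) : bil M β β = 1 := by
  obtain ⟨w, i, rfl⟩ := h
  rw [bil_rho, bil_al_self]

lemma IsRoot.ne_zero {β : B → ℝ} (h : IsRoot cs β) : β ≠ 0 := by
  intro h0
  have := h.bil_self
  rw [h0] at this; simp at this

lemma IsRoot.map {β : B → ℝ} (h : IsRoot cs β) (w : W) : IsRoot cs (rho cs w β) := by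
  obtain ⟨v, i, rfl⟩ := h
  exact ⟨w * v, i, by rw [rho_mul]⟩

lemma IsRoot.neg {β : B → ℝ} (h : IsRoot cs β) : IsRoot cs (-β) := by
  obtain ⟨v, i, rfl⟩ := h
  exact ⟨v * cs.simple i, i, by rw [rho_mul, rho_simple, rf_al_self, map_neg]⟩

lemma isRoot_al (i : B) : IsRoot cs (al i) := ⟨1, i, by rw [rho_one]⟩

lemma IsRoot.pos_or_neg {β : B → ℝ} (h : IsRoot cs β) : 0 ≤ β ∨ β ≤ 0 := by
  obtain ⟨v, i, rfl⟩ := h
  rcases cs.length_mul_simple v i with h | h
  · exact Or.inl (pos_of_ascent cs _ v i rfl h)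
  · exact Or.inr (neg_of_descent cs h)

lemma IsRoot.not_both {β : B → ℝ} (h : IsRoot cs β) (h1 : 0 ≤ β) (h2 : β ≤ 0) : False :=
  h.ne_zero (le_antisymm h2 h1)

lemma rho_injective : Function.Injective (rho cs) := by
  rw [injective_iff_map_eq_one]
  intro w hw
  by_contra h1
  obtain ⟨j, hj⟩ := cs.exists_rightDescent_of_ne_one h1
  rw [isRightDescent_iff] at hj
  have := neg_of_descent cs hj
  rw [hw] at this
  exact (isRoot_al (cs := cs) j).not_both (al_nonneg j) this

lemma simple_pos {β : B → ℝ} (h : IsRoot cs β) (h0 : 0 ≤ β) {i : B} (hi : β ≠ al i) :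
    0 ≤ rf M (al i) β := by
  have hr : IsRoot cs (rf M (al i) β) := by rw [← rho_simple cs]; exact h.map _
  rcases hr.pos_or_neg with h1 | h1
  · exact h1
  exfalso; apply hi
  have hb : β = β i • al i := by
    funext j
    by_cases hj : j = i
    · subst hj; simp [al]
    · have h2 := h1 j
      have h3 := h0 j
      rw [rf_apply] at h2
      simp only [al, Pi.sub_apply, Pi.smul_apply, Pi.single_eq_of_ne hj, smul_zero, sub_zero,
        Pi.zero_apply] at h2 h3 ⊢
      linarith
  have h2 := h.bil_self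
  rw [hb] at h2
  simp only [map_smul, LinearMap.smul_apply, bil_al_self, smul_eq_mul, mul_one] at h2
  have h3 : 0 ≤ β i := h0 i
  have h4 : β i = 1 := by nlinarith
  rw [hb, h4, one_smul]

variable (cs) in
/-- `β` is the positive root of the reflection `t`. -/
structure Lab (t : W) (β : B → ℝ) : Prop where
  refl : cs.IsReflection t
  root : IsRoot cs β
  pos : 0 ≤ β
  eq : rho cs t = rf M β

lemma exists_lab {t : W} (ht : cs.IsReflection t) : ∃ β, Lab cs t β := by
  obtain ⟨w, i, hw⟩ := ht
  have h : rho cs t = rf M (rho cs w (al i)) := by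
    apply LinearMap.ext; intro x
    rw [hw, rho_mul, rho_mul, rho_simple, rho_rf, rho_apply_inv]
  have hr : IsRoot cs (rho cs w (al i)) := ⟨w, i, rfl⟩
  rcases hr.pos_or_neg with h1 | h1
  · exact ⟨_, ⟨w, i, hw⟩, hr, h1, h⟩
  · exact ⟨-_, ⟨w, i, hw⟩, hr.neg, neg_nonneg.mpr h1, by rw [rf_neg, h]⟩

lemma lab_simple (i : B) : Lab cs (cs.simple i) (al i) :=
  ⟨cs.isReflection_simple i, isRoot_al i, al_nonneg i, rho_simple cs i⟩

lemma Lab.unique {t t' : W} {β : B → ℝ} (h : Lab cs t β) (h' : Lab cs t' β) : t = t' :=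
  rho_injective (h.eq.trans h'.eq.symm)

lemma Lab.conj {t : W} {β : B → ℝ} (h : Lab cs t β) {i : B} (hi : β ≠ al i) :
    Lab cs (cs.simple i * t * cs.simple i) (rf M (al i) β) := by
  refine ⟨by simpa using h.refl.conj (cs.simple i), ?_, simple_pos h.root h.pos hi, ?_⟩
  · rw [← rho_simple cs]; exact h.root.map _
  · apply LinearMap.ext; intro x
    rw [rho_mul, rho_mul, h.eq, rho_rf, rho_simple, rf_rf M (bil_al_self M i)]

lemma Lab.lt_of_neg : ∀ (n : ℕ) (x : W) {t : W} {β : B → ℝ}, cs.length x = n → Lab cs t β →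
    rho cs x β ≤ 0 → cs.length (x * t) < cs.length x := by
  intro n
  induction n with
  | zero =>
    intro x t β hx h hn
    rw [length_eq_zero_iff] at hx
    subst hx
    rw [rho_one] at hn
    exact (h.root.not_both h.pos hn).elim
  | succ n ih =>
    intro x t β hx h hn
    have h1 : x ≠ 1 := by rintro rfl; simp at hx
    obtain ⟨j, hj⟩ := cs.exists_rightDescent_of_ne_one h1
    rw [isRightDescent_iff] at hj
    by_cases hb : β = al j
    · subst hb
      rw [h.unique (lab_simple j)]; omega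
    · have h2 := ih (x * cs.simple j) (by omega) (h.conj hb) (by
        rw [rho_mul, rho_simple, rf_rf M (bil_al_self M j)]; exact hn)
      have h3 : x * t = (x * cs.simple j * (cs.simple j * t * cs.simple j)) * cs.simple j := by
        simp [mul_assoc]
      have h4 := cs.length_mul_le (x * cs.simple j * (cs.simple j * t * cs.simple j))
        (cs.simple j)
      rw [← h3, length_simple] at h4
      omega

lemma Lab.apply_self {t : W} {β : B → ℝ} (h : Lab cs t β) : rho cs t β = -β := by
  rw [h.eq, rf_self M h.root.bil_self]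

lemma Lab.gt_of_pos {x t : W} {β : B → ℝ} (h : Lab cs t β) (hp : 0 ≤ rho cs x β) :
    cs.length x < cs.length (x * t) := by
  have := Lab.lt_of_neg _ (x * t) rfl h (by
    rw [rho_mul, h.apply_self, map_neg]; exact neg_nonpos.mpr hp)
  rwa [mul_assoc, h.refl.mul_self, mul_one] at this

lemma Lab.pos_of_gt {x t : W} {β : B → ℝ} (h : Lab cs t β)
    (hl : cs.length x < cs.length (x * t)) : 0 ≤ rho cs x β := by
  rcases (h.root.map x).pos_or_neg with h1 | h1
  · exact h1
  · have := Lab.lt_of_neg _ x rfl h h1; omega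

variable (cs) in
def Inv (x : W) : Set (B → ℝ) := {γ | IsRoot cs γ ∧ 0 ≤ γ ∧ rho cs x γ ≤ 0}

lemma inv_card : ∀ (n : ℕ) (x : W), cs.length x = n →
    (Inv cs x).Finite ∧ (Inv cs x).ncard = n := by
  intro n
  induction n with
  | zero =>
    intro x hx
    rw [length_eq_zero_iff] at hx
    subst hx
    have : Inv cs (1 : W) = ∅ := by
      ext γ
      simp only [Inv, rho_one, Set.mem_ofPred_eq, Set.mem_empty_iff_false, iff_false]
      rintro ⟨h1, h2, h3⟩
      exact h1.not_both h2 h3
    simp [this]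
  | succ n ih =>
    intro x hx
    have h1 : x ≠ 1 := by rintro rfl; simp at hx
    obtain ⟨j, hj⟩ := cs.exists_rightDescent_of_ne_one h1
    rw [isRightDescent_iff] at hj
    obtain ⟨hf, hc⟩ := ih (x * cs.simple j) (by omega)
    have hinj : Function.Injective (rf M (al j)) := fun a b hab => by
      have := congrArg (rf M (al j)) hab
      rwa [rf_rf M (bil_al_self M j), rf_rf M (bil_al_self M j)] at this
    have hnot : al j ∉ Inv cs (x * cs.simple j) := by
      rintro ⟨-, -, h3⟩
      have := pos_of_ascent cs _ (x * cs.simple j) j rfl (by simp; omega)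
      exact ((isRoot_al j).map _).not_both this h3
    have he : Inv cs x = insert (al j) (rf M (al j) '' Inv cs (x * cs.simple j)) := by
      ext γ
      constructor
      · rintro ⟨h1, h2, h3⟩
        by_cases hb : γ = al j
        · exact Or.inl hb
        · refine Or.inr ⟨rf M (al j) γ, ⟨?_, simple_pos h1 h2 hb, ?_⟩,
            rf_rf M (bil_al_self M j) γ⟩
          · rw [← rho_simple cs]; exact h1.map _
          · rw [rho_mul, rho_simple, rf_rf M (bil_al_self M j)]; exact h3
      · rintro (rfl | ⟨δ, ⟨h1, h2, h3⟩, rfl⟩)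
        · exact ⟨isRoot_al j, al_nonneg j, neg_of_descent cs hj⟩
        · refine ⟨?_, simple_pos h1 h2 (by rintro rfl; exact hnot ⟨h1, h2, h3⟩), ?_⟩
          · rw [← rho_simple cs]; exact h1.map _
          · rwa [rho_mul, rho_simple] at h3
    have hnot' : al j ∉ rf M (al j) '' Inv cs (x * cs.simple j) := by
      rintro ⟨δ, ⟨h1, h2, h3⟩, h4⟩
      have : δ = -al j := by
        apply hinj; rw [h4, map_neg, rf_al_self, neg_neg]
      rw [this] at h2
      exact (isRoot_al (cs := cs) j).not_both (al_nonneg j) (neg_nonneg.mp h2)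
    rw [he]
    refine ⟨(hf.image _).insert _, ?_⟩
    rw [Set.ncard_insert_of_notMem hnot' (hf.image _), Set.ncard_image_of_injective _ hinj, hc]

lemma cover_ext {x t : W} {β γ : B → ℝ} (h : Lab cs t β)
    (hl : cs.length (x * t) = cs.length x + 1) (hγ : IsRoot cs γ) (h0 : 0 ≤ γ)
    (h1 : 0 ≤ rho cs x γ) (h2 : rf M β γ ≤ 0) (h3 : rho cs x (rf M β γ) ≤ 0) : γ = β := by
  by_contra hne
  classical
  obtain ⟨hf, hc⟩ := inv_card (cs := cs) _ x rfl
  obtain ⟨hf', hc'⟩ := inv_card (cs := cs) _ (x * t) rfl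
  have hxb : 0 ≤ rho cs x β := h.pos_of_gt (by omega)
  have hroot : ∀ δ, IsRoot cs δ → IsRoot cs (rf M β δ) := fun δ hδ => by
    rw [← h.eq]; exact hδ.map _
  have hrr := rf_rf M h.root.bil_self
  let θ : (B → ℝ) → (B → ℝ) := fun δ => if 0 ≤ rf M β δ then rf M β δ else δ
  have hinj : Set.InjOn θ (Inv cs x) := by
    rintro a ⟨a1, a2, -⟩ b ⟨b1, b2, -⟩ hab
    simp only [θ] at hab
    split_ifs at hab with c1 c2 c2
    · have := congrArg (rf M β) hab
      rwa [hrr, hrr] at this
    · exfalso; apply c2; rw [← hab, hrr]; exact a2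
    · exfalso; apply c1; rw [hab, hrr]; exact b2
    · exact hab
  have hsub : insert β (insert γ (θ '' Inv cs x)) ⊆ Inv cs (x * t) := by
    rintro δ (rfl | rfl | ⟨a, ⟨a1, a2, a3⟩, rfl⟩)
    · refine ⟨h.root, h.pos, ?_⟩
      rw [rho_mul, h.apply_self, map_neg]; exact neg_nonpos.mpr hxb
    · refine ⟨hγ, h0, ?_⟩
      rw [rho_mul, h.eq]; exact h3
    · simp only [θ]
      split_ifs with c1
      · refine ⟨hroot a a1, c1, ?_⟩
        rw [rho_mul, h.eq, hrr]; exact a3
      · refine ⟨a1, a2, ?_⟩
        rw [rho_mul, h.eq]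
        have c2 : rf M β a ≤ 0 := (hroot a a1).pos_or_neg.resolve_left c1
        rcases ((hroot a a1).map x).pos_or_neg with c3 | c3
        swap
        · exact c3
        exfalso
        -- a - rf a = m β
        have e1 : a - rf M β a = (2 * bil M a β) • β := by rw [rf_apply]; module
        have e2 : 0 ≤ a - rf M β a := sub_nonneg.mpr (c2.trans a2)
        have e3 : rho cs x (a - rf M β a) ≤ 0 := by
          rw [map_sub]; exact sub_nonpos.mpr (a3.trans c3)
        rcases lt_trichotomy (2 * bil M a β) 0 with m | m | m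
        · rw [e1] at e2
          have : β ≤ 0 := by
            intro j
            have := e2 j
            simp only [Pi.smul_apply, smul_eq_mul, Pi.zero_apply] at this ⊢
            nlinarith
          exact h.root.not_both h.pos this
        · rw [m, zero_smul, sub_eq_zero] at e1
          apply c1; rw [← e1]; exact a2
        · rw [e1, map_smul] at e3
          have : rho cs x β ≤ 0 := by
            intro j
            have := e3 j
            simp only [Pi.smul_apply, smul_eq_mul, Pi.zero_apply] at this ⊢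
            nlinarith
          exact (h.root.map x).not_both hxb this
  have hn1 : ∀ δ, IsRoot cs δ → rf M β δ ≤ 0 → 0 ≤ rho cs x δ → δ ∉ θ '' Inv cs x := by
    rintro δ d1 d2 d3 ⟨a, ⟨a1, a2, a3⟩, ha⟩
    simp only [θ] at ha
    split_ifs at ha with c1
    · rw [← ha, hrr] at d2
      exact a1.not_both a2 d2
    · subst ha
      exact (a1.map x).not_both d3 a3
  have hg := hn1 γ hγ h2 h1
  have hb := hn1 β h.root (by rw [rf_self M h.root.bil_self]; exact neg_nonpos.mpr h.pos) hxb
  have hb' : β ∉ insert γ (θ '' Inv cs x) := by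
    rintro (h5 | h5)
    · exact hne h5.symm
    · exact hb h5
  have := Set.ncard_le_ncard hsub hf'
  rw [Set.ncard_insert_of_notMem hb' ((hf.image _).insert _),
    Set.ncard_insert_of_notMem hg (hf.image _), hinj.ncard_image, hc, hc'] at this
  omega

noncomputable def hgt : (B → ℝ) →ₗ[ℝ] ℝ := ∑ i, LinearMap.proj i

omit [DecidableEq B] in
lemma hgt_apply (x : B → ℝ) : hgt x = ∑ i, x i := by simp [hgt]

lemma IsRoot.hgt_pos {β : B → ℝ} (h : IsRoot cs β) (h0 : 0 ≤ β) : 0 < hgt β := by
  rw [hgt_apply]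
  apply lt_of_le_of_ne (Finset.sum_nonneg fun i _ => h0 i)
  intro he
  apply h.ne_zero
  funext i
  exact (Finset.sum_eq_zero_iff_of_nonneg fun i _ => h0 i).mp he.symm i (Finset.mem_univ i)

lemma IsRoot.neg_of_hgt {β : B → ℝ} (h : IsRoot cs β) (h0 : hgt β < 0) : β ≤ 0 := by
  rcases h.pos_or_neg with h1 | h1
  · have := h.hgt_pos h1; linarith
  · exact h1

variable (cs) in
/-- positive roots that are not inversions of `x` -/
def Non (x : W) : Set (B → ℝ) := {γ | IsRoot cs γ ∧ 0 ≤ γ ∧ 0 ≤ rho cs x γ}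

lemma exists_sep {x t : W} {β : B → ℝ} (h : Lab cs t β)
    (hl : cs.length (x * t) = cs.length x + 1) :
    ∃ g : (B → ℝ) →ₗ[ℝ] ℝ, g β = 0 ∧ ∀ γ ∈ Non cs x, γ ≠ β → g γ < 0 := by
  have hxb : 0 ≤ rho cs x β := h.pos_of_gt (by omega)
  have p1 := h.root.hgt_pos h.pos
  have p2 := (h.root.map x).hgt_pos hxb
  refine ⟨(2 : ℝ) • (bil M).flip β - (hgt β)⁻¹ • hgt -
    (hgt (rho cs x β))⁻¹ • (hgt ∘ₗ rho cs x), ?_, ?_⟩
  · simp only [LinearMap.sub_apply, LinearMap.smul_apply, LinearMap.flip_apply, h.root.bil_self,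
      smul_eq_mul, LinearMap.comp_apply]
    field_simp; ring
  · rintro γ ⟨g1, g2, g3⟩ hne
    by_contra hc
    push Not at hc
    simp only [LinearMap.sub_apply, LinearMap.smul_apply, LinearMap.flip_apply,
      smul_eq_mul, LinearMap.comp_apply] at hc
    have q1 := g1.hgt_pos g2
    have q2 := (g1.map x).hgt_pos g3
    have hr : IsRoot cs (rf M β γ) := by rw [← h.eq]; exact g1.map _
    have r1 : 0 < (hgt β)⁻¹ * hgt γ := by positivity
    have r2 : 0 < (hgt (rho cs x β))⁻¹ * hgt (rho cs x γ) := by positivity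
    apply hne
    apply cover_ext h hl g1 g2 g3
    · apply hr.neg_of_hgt
      rw [rf_apply, map_sub, map_smul, smul_eq_mul]
      have : hgt γ = (hgt β)⁻¹ * hgt γ * hgt β := by field_simp
      nlinarith
    · apply (hr.map x).neg_of_hgt
      rw [rf_apply, map_sub, map_smul, map_sub, map_smul, smul_eq_mul]
      have : hgt (rho cs x γ) = (hgt (rho cs x β))⁻¹ * hgt (rho cs x γ) * hgt (rho cs x β) := by
        field_simp
      nlinarith

end Pool.Agent.MP_8f5299_co

end

section

namespace Pool.Agent.MP_8f5299_co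

open CoxeterSystem

variable {B : Type*} {M : CoxeterMatrix B}
variable {W : Type*} [Group W] {cs : CoxeterSystem M W}

variable (cs) in
def Le : W → W → Prop := Relation.ReflTransGen (BCov cs)

variable (cs) in
def Up (x : W) (i : B) : Prop := cs.length (x * cs.simple i) = cs.length x + 1

variable (cs) in
def Dn (x : W) (i : B) : Prop := cs.length (x * cs.simple i) + 1 = cs.length x

lemma up_or_dn (x : W) (i : B) : Up cs x i ∨ Dn cs x i := cs.length_mul_simple x i

lemma Up.not_dn {x : W} {i : B} (h : Up cs x i) (h' : Dn cs x i) : False := by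
  unfold Up at h; unfold Dn at h'; omega

lemma Up.dn {x : W} {i : B} (h : Up cs x i) : Dn cs (x * cs.simple i) i := by
  unfold Up at h; unfold Dn; simp; omega

lemma Dn.up {x : W} {i : B} (h : Dn cs x i) : Up cs (x * cs.simple i) i := by
  unfold Dn at h; unfold Up; simp; omega

lemma Le.refl (x : W) : Le cs x x := Relation.ReflTransGen.refl

lemma Le.trans {x y z : W} (h : Le cs x y) (h' : Le cs y z) : Le cs x z :=
  Relation.ReflTransGen.trans h h'

lemma BCov.le {x y : W} (h : BCov cs x y) : Le cs x y := Relation.ReflTransGen.single h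

lemma Le.eq_or_lt {x y : W} (h : Le cs x y) : x = y ∨ cs.length x < cs.length y := by
  induction h with
  | refl => exact Or.inl rfl
  | tail _ h2 ih =>
    right
    rcases ih with rfl | ih <;> (have := h2.1; omega)

lemma Le.len {x y : W} (h : Le cs x y) : cs.length x ≤ cs.length y := by
  rcases h.eq_or_lt with rfl | h <;> omega

lemma Le.eq_of_len {x y : W} (h : Le cs x y) (hl : cs.length y ≤ cs.length x) : x = y := by
  rcases h.eq_or_lt with rfl | h
  · rfl
  · omega

lemma Le.antisymm {x y : W} (h : Le cs x y) (h' : Le cs y x) : x = y := h.eq_of_len h'.len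

lemma Le.head {x y : W} (h : Le cs x y) (hne : x ≠ y) : ∃ a, BCov cs x a ∧ Le cs a y := by
  rcases Relation.ReflTransGen.cases_head h with h | h
  · exact (hne h).elim
  · exact h

lemma Le.tail {x y : W} (h : Le cs x y) (hne : x ≠ y) : ∃ a, Le cs x a ∧ BCov cs a y := by
  rcases Relation.ReflTransGen.cases_tail h with h | h
  · exact (hne h.symm).elim
  · exact h

lemma Le.bcov {x y : W} (h : Le cs x y) (hl : cs.length y = cs.length x + 1) : BCov cs x y := by
  obtain ⟨a, h1, h2⟩ := h.head (by rintro rfl; omega)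
  have := h2.eq_of_len (by have := h1.1; omega)
  rwa [← this]

lemma Up.bcov {x : W} {i : B} (h : Up cs x i) : BCov cs x (x * cs.simple i) :=
  ⟨h, _, cs.isReflection_simple i, rfl⟩

lemma Dn.bcov {x : W} {i : B} (h : Dn cs x i) : BCov cs (x * cs.simple i) x := by
  simpa using h.up.bcov

lemma BCov.conj {x y : W} {i : B} (h : BCov cs x y)
    (hl : cs.length (y * cs.simple i) = cs.length (x * cs.simple i) + 1) :
    BCov cs (x * cs.simple i) (y * cs.simple i) := by
  obtain ⟨-, t, ht, rfl⟩ := h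
  exact ⟨hl, cs.simple i * t * cs.simple i, by simpa using ht.conj (cs.simple i),
    by simp [mul_assoc]⟩

lemma BCov.uu {x y : W} {i : B} (h : BCov cs x y) (hx : Up cs x i) (hy : Up cs y i) :
    BCov cs (x * cs.simple i) (y * cs.simple i) :=
  h.conj (by have := h.1; unfold Up at hx hy; omega)

lemma BCov.dd {x y : W} {i : B} (h : BCov cs x y) (hx : Dn cs x i) (hy : Dn cs y i) :
    BCov cs (x * cs.simple i) (y * cs.simple i) :=
  h.conj (by have := h.1; unfold Dn at hx hy; omega)

variable [Fintype B] [DecidableEq B]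

lemma BCov.ud {x y : W} {i : B} (h : BCov cs x y) (hx : Up cs x i) (hy : Dn cs y i) :
    y = x * cs.simple i := by
  obtain ⟨hl, t, ht, rfl⟩ := h
  obtain ⟨β, hβ⟩ := exists_lab ht
  by_cases hb : β = al i
  · subst hb; rw [hβ.unique (lab_simple i)]
  · exfalso
    have h1 : 0 ≤ rho cs x β := hβ.pos_of_gt (by omega)
    have h2 := (hβ.conj hb).gt_of_pos (x := x * cs.simple i) (by
      rw [rho_mul, rho_simple, rf_rf M (bil_al_self M i)]; exact h1)
    have h3 : x * cs.simple i * (cs.simple i * t * cs.simple i) = x * t * cs.simple i := by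
      simp [mul_assoc]
    rw [h3] at h2
    unfold Up at hx; unfold Dn at hy; omega

open Classical in
variable (cs) in
noncomputable def dem (x : W) (i : B) : W := if Up cs x i then x * cs.simple i else x

open Classical in
variable (cs) in
noncomputable def low (x : W) (i : B) : W := if Up cs x i then x else x * cs.simple i

omit [Fintype B] [DecidableEq B] in
lemma Up.dem {x : W} {i : B} (h : Up cs x i) : dem cs x i = x * cs.simple i := if_pos h
omit [Fintype B] [DecidableEq B] in
lemma Dn.dem {x : W} {i : B} (h : Dn cs x i) : dem cs x i = x := if_neg fun h' => h'.not_dn h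
omit [Fintype B] [DecidableEq B] in
lemma Up.low {x : W} {i : B} (h : Up cs x i) : low cs x i = x := if_pos h
omit [Fintype B] [DecidableEq B] in
lemma Dn.low {x : W} {i : B} (h : Dn cs x i) : low cs x i = x * cs.simple i :=
  if_neg fun h' => h'.not_dn h

lemma Le.dem {x y : W} (h : Le cs x y) (i : B) : Le cs (dem cs x i) (dem cs y i) := by
  induction h with
  | refl => exact Le.refl _
  | @tail b c _ h2 ih =>
    refine ih.trans ?_
    rcases up_or_dn (cs := cs) b i with hb | hb <;> rcases up_or_dn (cs := cs) c i with hc | hc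
    · rw [hb.dem, hc.dem]; exact (h2.uu hb hc).le
    · rw [hb.dem, hc.dem, h2.ud hb hc]; exact Le.refl _
    · rw [hb.dem, hc.dem]; exact h2.le.trans hc.bcov.le
    · rw [hb.dem, hc.dem]; exact h2.le

lemma Le.low {x y : W} (h : Le cs x y) (i : B) : Le cs (low cs x i) (low cs y i) := by
  induction h with
  | refl => exact Le.refl _
  | @tail b c _ h2 ih =>
    refine ih.trans ?_
    rcases up_or_dn (cs := cs) b i with hb | hb <;> rcases up_or_dn (cs := cs) c i with hc | hc
    · rw [hb.low, hc.low]; exact h2.le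
    · rw [hb.low, hc.low, h2.ud hb hc]; simpa using Le.refl _
    · rw [hb.low, hc.low]; exact hb.bcov.le.trans h2.le
    · rw [hb.low, hc.low]; exact (h2.dd hb hc).le

lemma Le.uu {x y : W} {i : B} (h : Le cs x y) (hx : Up cs x i) (hy : Up cs y i) :
    Le cs (x * cs.simple i) (y * cs.simple i) := by
  have := h.dem i; rwa [hx.dem, hy.dem] at this

lemma Le.dd {x y : W} {i : B} (h : Le cs x y) (hx : Dn cs x i) (hy : Dn cs y i) :
    Le cs (x * cs.simple i) (y * cs.simple i) := by
  have := h.low i; rwa [hx.low, hy.low] at this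

lemma Le.ud1 {x y : W} {i : B} (h : Le cs x y) (hx : Up cs x i) (hy : Dn cs y i) :
    Le cs (x * cs.simple i) y := by
  have := h.dem i; rwa [hx.dem, hy.dem] at this

lemma Le.ud2 {x y : W} {i : B} (h : Le cs x y) (hx : Up cs x i) (hy : Dn cs y i) :
    Le cs x (y * cs.simple i) := by
  have := h.low i; rwa [hx.low, hy.low] at this

omit [Fintype B] [DecidableEq B] in
lemma le_dem (x : W) (i : B) : Le cs x (dem cs x i) := by
  rcases up_or_dn (cs := cs) x i with h | h
  · rw [h.dem]; exact h.bcov.le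
  · rw [h.dem]; exact Le.refl _

omit [Fintype B] [DecidableEq B] in
lemma low_le (x : W) (i : B) : Le cs (low cs x i) x := by
  rcases up_or_dn (cs := cs) x i with h | h
  · rw [h.low]; exact Le.refl _
  · rw [h.low]; exact h.bcov.le

lemma le_dem_iff {x y : W} {i : B} : Le cs y (dem cs x i) ↔ Le cs (low cs y i) x := by
  constructor
  · intro h
    refine (h.low i).trans ?_
    rcases up_or_dn (cs := cs) x i with hx | hx
    · rw [hx.dem, hx.dn.low]; simpa using Le.refl x
    · rw [hx.dem]; exact low_le _ _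
  · intro h
    refine Le.trans ?_ (h.dem i)
    rcases up_or_dn (cs := cs) y i with hy | hy
    · rw [hy.low]; exact le_dem _ _
    · rw [hy.low, hy.up.dem]; simpa using Le.refl y

lemma diamond : ∀ (n : ℕ) {x y z : W}, cs.length z = n → BCov cs x y → BCov cs y z →
    ∃ y', y' ≠ y ∧ BCov cs x y' ∧ BCov cs y' z := by
  intro n
  induction n using Nat.strong_induction_on with
  | _ n ih =>
  intro x y z hn hxy hyz
  have l1 := hxy.1
  have l2 := hyz.1
  have h1 : z ≠ 1 := by rintro rfl; simp at l2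
  obtain ⟨i, hi⟩ := cs.exists_rightDescent_of_ne_one h1
  rw [isRightDescent_iff] at hi
  have hz : Dn cs z i := hi
  have hxz := hxy.le.trans hyz.le
  rcases up_or_dn (cs := cs) x i with hx | hx
  · by_cases hy : y = x * cs.simple i
    · refine ⟨z * cs.simple i, ?_, (hxz.ud2 hx hz).bcov (by omega), hz.bcov⟩
      rw [hy]; intro h; have := mul_right_cancel h; subst this; omega
    · exact ⟨x * cs.simple i, Ne.symm hy, hx.bcov,
        (hxz.ud1 hx hz).bcov (by unfold Up at hx; omega)⟩
  · rcases up_or_dn (cs := cs) y i with hy | hy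
    · have hzy := hyz.ud hy hz
      have hy' : y = z * cs.simple i := by rw [hzy]; simp
      obtain ⟨y'', hne, c1, c2⟩ := ih (cs.length y) (by omega) rfl hx.bcov hxy
      rcases up_or_dn (cs := cs) y'' i with h2 | h2
      · refine ⟨y'' * cs.simple i, ?_, by simpa using c1.uu hx.up h2, ?_⟩
        · intro h; rw [← h] at hy; exact hy.not_dn h2.dn
        · rw [hzy]; exact c2.uu h2 hy
      · exfalso; apply hne; simpa using c1.ud hx.up h2
    · obtain ⟨y'', hne, c1, c2⟩ := ih (cs.length (z * cs.simple i)) (by omega) rfl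
        (hxy.dd hx hy) (hyz.dd hy hz)
      rcases up_or_dn (cs := cs) y'' i with h2 | h2
      · refine ⟨y'' * cs.simple i, ?_, by simpa using c1.uu hx.up h2,
          by simpa using c2.uu h2 hz.up⟩
        intro h; apply hne; rw [← h]; simp
      · have : y'' = x := by simpa using c1.ud hx.up h2
        subst this
        refine ⟨z * cs.simple i, ?_, c2, hz.bcov⟩
        intro h; rw [← h] at hy; exact hz.up.not_dn hy

variable (cs) in
noncomputable def phi (ω : List B) (x : W) : W := ω.foldl (dem cs) x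

variable (cs) in
noncomputable def psi (ω : List B) (y : W) : W := ω.foldr (fun i y => low cs y i) y

lemma le_phi_iff : ∀ (ω : List B) (x y : W), Le cs y (phi cs ω x) ↔ Le cs (psi cs ω y) x
  | [], x, y => Iff.rfl
  | i :: ω, x, y => by
    change Le cs y (phi cs ω (dem cs x i)) ↔ Le cs (low cs (psi cs ω y) i) x
    rw [le_phi_iff ω, le_dem_iff]

omit [Fintype B] [DecidableEq B] in
lemma psi_le : ∀ (ω : List B) (y : W), Le cs (psi cs ω y) y
  | [], y => Le.refl y
  | i :: ω, y => (low_le _ i).trans (psi_le ω y)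

lemma le_phi (ω : List B) (x : W) : Le cs x (phi cs ω x) := (le_phi_iff ω x x).mpr (psi_le ω x)

lemma Le.phi {x y : W} (h : Le cs x y) (ω : List B) : Le cs (phi cs ω x) (phi cs ω y) :=
  (le_phi_iff ω y _).mpr (((le_phi_iff ω x _).mp (Le.refl _)).trans h)

omit [Fintype B] [DecidableEq B] in
lemma up_of_psi : ∀ (ω : List B) (y : W), psi cs ω y = y → ∀ i ∈ ω, Up cs y i
  | [], y, _, i, hi => by simp at hi
  | j :: ω, y, h, i, hi => by
    change low cs (psi cs ω y) j = y at h
    have h1 : psi cs ω y = y := (psi_le ω y).antisymm (by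
      have := low_le (cs := cs) (psi cs ω y) j; rwa [h] at this)
    rcases List.mem_cons.mp hi with rfl | hi
    · rw [h1] at h
      rcases up_or_dn (cs := cs) y i with h2 | h2
      · exact h2
      · rw [h2.low] at h; unfold Dn at h2; rw [h] at h2; omega
    · exact up_of_psi ω y h1 i hi

omit [Fintype B] [DecidableEq B] in
lemma eq_one_of_psi {ω : List B} (hω : ∀ i, i ∈ ω) {y : W} (h : psi cs ω y = y) : y = 1 := by
  by_contra h1
  obtain ⟨i, hi⟩ := cs.exists_rightDescent_of_ne_one h1
  rw [isRightDescent_iff] at hi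
  exact (up_of_psi ω y h i (hω i)).not_dn hi

lemma coord_fix : ∀ (ω : List B) (i : B) (z : B → ℝ), i ∉ ω →
    rho cs (cs.wordProd ω) z i = z i
  | [], i, z, _ => by simp
  | j :: ω, i, z, h => by
    rw [List.mem_cons, not_or] at h
    rw [wordProd_cons, rho_mul, rho_simple, rf_apply]
    simp [al, Pi.single_eq_of_ne h.1, coord_fix ω i z h.2]

omit [Fintype B] [DecidableEq B] in
lemma phi_concat (ω : List B) (i : B) (x : W) :
    phi cs (ω ++ [i]) x = dem cs (phi cs ω x) i := by simp [phi]

lemma exists_base (ω : List B) (hω : ω.Nodup) (x : W) :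
    ∃ w, Le cs w x ∧ w * cs.wordProd ω = phi cs ω x ∧
      cs.length (w * cs.wordProd ω) = cs.length w + ω.length := by
  induction ω using List.reverseRecOn with
  | nil => exact ⟨x, Le.refl x, by simp [phi], by simp⟩
  | append_singleton ω i ih =>
    have hi : i ∉ ω := by
      intro h; rw [List.nodup_append] at hω; exact hω.2.2 i h i (by simp) rfl
    obtain ⟨w, h1, h2, h3⟩ := ih (List.nodup_append.mp hω).1
    rw [phi_concat, wordProd_append, wordProd_singleton, List.length_append, List.length_singleton]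
    rcases up_or_dn (cs := cs) (phi cs ω x) i with hu | hd
    · refine ⟨w, h1, by rw [hu.dem, ← h2, mul_assoc], ?_⟩
      unfold Up at hu
      rw [← mul_assoc, h2, hu, ← h2, h3]; omega
    · set c := cs.wordProd ω
      have hr : IsRoot cs (rho cs c (al i)) := ⟨c, i, rfl⟩
      have hp : 0 ≤ rho cs c (al i) := by
        rcases hr.pos_or_neg with h | h
        · exact h
        · have := h i
          rw [coord_fix ω i _ hi] at this
          simp [al] at this
          linarith
      have hlab : Lab cs (c * cs.simple i * c⁻¹) (rho cs c (al i)) := by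
        refine ⟨⟨c, i, rfl⟩, hr, hp, ?_⟩
        apply LinearMap.ext; intro z
        rw [rho_mul, rho_mul, rho_simple, rho_rf, rho_apply_inv]
      have hlt := Lab.lt_of_neg _ w rfl hlab (by
        rw [← rho_mul, h2]; exact neg_of_descent cs hd)
      have he : w * (c * cs.simple i * c⁻¹) * (c * cs.simple i) = phi cs ω x := by
        rw [← h2]; simp [mul_assoc]
      have hle := cs.length_mul_le (w * (c * cs.simple i * c⁻¹)) c
      have he2 : w * (c * cs.simple i * c⁻¹) * c = phi cs ω x * cs.simple i := by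
        rw [← h2]; simp [mul_assoc]
      have hc : cs.length c ≤ ω.length := cs.length_wordProd_le ω
      unfold Dn at hd
      rw [he2] at hle
      rw [h2] at h3
      refine ⟨w * (c * cs.simple i * c⁻¹), Le.trans (BCov.le ⟨by omega, _, hlab.refl, ?_⟩) h1,
        by rw [he, Dn.dem hd], by rw [he]; omega⟩
      rw [mul_assoc, hlab.refl.mul_self, mul_one]

omit [Fintype B] [DecidableEq B] in
lemma phi_of_reduced (ω : List B) (w : W)
    (h : cs.length (w * cs.wordProd ω) = cs.length w + ω.length) :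
    phi cs ω w = w * cs.wordProd ω := by
  induction ω using List.reverseRecOn with
  | nil => simp [phi]
  | append_singleton ω i ih =>
    rw [wordProd_append, wordProd_singleton, List.length_append, List.length_singleton,
      ← mul_assoc] at h
    have h1 := cs.length_mul_le w (cs.wordProd ω)
    have h2 := cs.length_wordProd_le ω
    have h3 := cs.length_mul_simple (w * cs.wordProd ω) i
    have h4 : Up cs (w * cs.wordProd ω) i := by unfold Up; omega
    rw [phi_concat, ih (by omega), h4.dem, wordProd_append, wordProd_singleton, mul_assoc]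

lemma fix_simple : ∀ (ω : List B), ω.Nodup → ∀ (z : B → ℝ), rho cs (cs.wordProd ω) z = z →
    ∀ i ∈ ω, bil M z (al i) = 0
  | [], _, z, _, i, hi => by simp at hi
  | j :: ω, hω, z, h, i, hi => by
    rw [List.nodup_cons] at hω
    rw [wordProd_cons, rho_mul, rho_simple] at h
    have h1 : rho cs (cs.wordProd ω) z = rf M (al j) z := by
      rw [← rf_rf M (bil_al_self M j) (rho cs (cs.wordProd ω) z), h]
    have h2 := coord_fix (cs := cs) ω j z hω.1
    rw [h1, rf_apply] at h2
    have h3 : bil M z (al j) = 0 := by simpa [al] using h2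
    rcases List.mem_cons.mp hi with rfl | hi
    · exact h3
    · refine fix_simple ω hω.2 z ?_ i hi
      rw [h1, rf_apply, h3]; simp

lemma fix_zero [Finite W] {ω : List B} (hω : ω.Nodup) (hall : ∀ i, i ∈ ω) (z : B → ℝ)
    (h : rho cs (cs.wordProd ω) z = z) : z = 0 := by
  have := Fintype.ofFinite W
  have h1 : ∀ w, rho cs w z = z := by
    intro w
    induction w using cs.simple_induction_left with
    | one => simp
    | mul_simple_left w i ih =>
      rw [rho_mul, ih, rho_simple, rf_apply, fix_simple ω hω z h i (hall i)]; simp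
  let A : Module.End ℝ (B → ℝ) := ∑ w, rho cs w
  have hA : ∀ i, A (al i) = 0 := by
    intro i
    have e : ∑ w, rho cs w (al i) = ∑ w, rho cs (w * cs.simple i) (al i) :=
      (Equiv.sum_comp (Equiv.mulRight (cs.simple i)) (fun w => rho cs w (al i))).symm
    simp only [rho_mul, rho_simple, rf_al_self, map_neg, Finset.sum_neg_distrib] at e
    have e2 : A (al i) = ∑ w, rho cs w (al i) := by simp [A]
    rw [e2]
    exact self_eq_neg.mp e
  have hA0 : A z = 0 := by
    have : z = ∑ i, z i • al i := by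
      funext j; simp [al, Finset.sum_apply, Pi.single_apply]
    rw [this, map_sum]; simp [hA]
  have e2 : A z = ∑ w, rho cs w z := by simp [A]
  rw [e2] at hA0
  simp only [h1, Finset.sum_const, Finset.card_univ] at hA0
  rcases smul_eq_zero.mp ((Nat.cast_smul_eq_nsmul ℝ _ z).trans hA0) with h | h
  · exact absurd h (by exact_mod_cast Fintype.card_ne_zero)
  · exact h

end Pool.Agent.MP_8f5299_co

end

section

namespace Pool.Agent.MP_8f5299_co

open CoxeterSystem Module

section Cone

variable {V : Type*} [AddCommGroup V] [Module ℝ V]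

inductive InCone (S : Set V) : V → Prop
  | zero : InCone S 0
  | step {k γ : V} {c : ℝ} : InCone S k → γ ∈ S → 0 ≤ c → InCone S (k + c • γ)

lemma InCone.ind {S : Set V} {P : V → Prop} (h0 : P 0) (hS : ∀ γ ∈ S, P γ)
    (hadd : ∀ a b, P a → P b → P (a + b)) (hsm : ∀ (c : ℝ) a, 0 ≤ c → P a → P (c • a))
    {k : V} (h : InCone S k) : P k := by
  induction h with
  | zero => exact h0
  | step _ hγ hc ih => exact hadd _ _ ih (hsm _ _ hc (hS _ hγ))

lemma InCone.add {S : Set V} {a b : V} (ha : InCone S a) (hb : InCone S b) :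
    InCone S (a + b) := by
  induction hb with
  | zero => simpa using ha
  | step _ hγ hc ih => rw [← add_assoc]; exact ih.step hγ hc

lemma InCone.smul {S : Set V} {a : V} (ha : InCone S a) {c : ℝ} (hc : 0 ≤ c) :
    InCone S (c • a) := by
  induction ha with
  | zero => simpa using InCone.zero
  | step _ hγ hd ih => rw [smul_add, smul_smul]; exact ih.step hγ (mul_nonneg hc hd)

lemma InCone.of_mem {S : Set V} {γ : V} (h : γ ∈ S) : InCone S γ := by
  simpa using InCone.zero.step h zero_le_one

lemma InCone.map {S T : Set V} (f : V →ₗ[ℝ] V) (hf : ∀ γ ∈ S, InCone T (f γ)) {k : V}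
    (h : InCone S k) : InCone T (f k) :=
  h.ind (P := fun k => InCone T (f k)) (by simpa using InCone.zero) hf
    (fun a b ha hb => by simpa using ha.add hb) (fun c a hc ha => by simpa using ha.smul hc)

lemma InCone.mono {S T : Set V} (hf : S ⊆ T) {k : V} (h : InCone S k) : InCone T k :=
  h.map LinearMap.id fun _ hγ => InCone.of_mem (hf hγ)

lemma InCone.mem {S : Set V} {N : Submodule ℝ V} (hf : ∀ γ ∈ S, γ ∈ N) {k : V}
    (h : InCone S k) : k ∈ N :=
  h.ind (P := fun k => k ∈ N) N.zero_mem hf (fun _ _ => N.add_mem) (fun c _ _ => N.smul_mem c)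

lemma InCone.nonpos {S : Set V} (g : V →ₗ[ℝ] ℝ) (hg : ∀ γ ∈ S, g γ ≤ 0) {k : V}
    (h : InCone S k) : g k ≤ 0 :=
  h.ind (P := fun k => g k ≤ 0) (by simp) hg (fun a b ha hb => by rw [map_add]; linarith)
    (fun c a hc ha => by rw [map_smul, smul_eq_mul]; nlinarith)

lemma InCone.cases' {S : Set V} {k : V} (h : InCone S k) :
    k = 0 ∨ ∃ k' γ, ∃ c : ℝ, InCone S k' ∧ γ ∈ S ∧ 0 < c ∧ k = k' + c • γ := by
  induction h with
  | zero => exact Or.inl rfl
  | @step k γ c hk hγ hc ih =>
    rcases hc.eq_or_lt with rfl | hc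
    · simpa using ih
    · exact Or.inr ⟨k, γ, c, hk, hγ, hc, rfl⟩

end Cone

variable {B : Type*} [Fintype B] [DecidableEq B] {M : CoxeterMatrix B}
variable {W : Type*} [Group W] {cs : CoxeterSystem M W}

variable (cs) in
noncomputable def Mov (g : W) : Submodule ℝ (B → ℝ) := LinearMap.range (rho cs g - 1)

variable (cs) in
noncomputable def Vs (x y : W) : Submodule ℝ (B → ℝ) := Mov cs (x⁻¹ * y)

lemma mem_mov {g : W} {z : B → ℝ} : z ∈ Mov cs g ↔ ∃ y, rho cs g y - y = z := by
  simp [Mov]

lemma Vs_le (x y z : W) : Vs cs x z ≤ Vs cs x y ⊔ Vs cs y z := by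
  intro k hk
  obtain ⟨p, rfl⟩ := mem_mov.mp hk
  have : x⁻¹ * z = (x⁻¹ * y) * (y⁻¹ * z) := by group
  rw [this, rho_mul]
  have e : rho cs (x⁻¹ * y) (rho cs (y⁻¹ * z) p) - p =
      (rho cs (x⁻¹ * y) (rho cs (y⁻¹ * z) p) - rho cs (y⁻¹ * z) p) +
        (rho cs (y⁻¹ * z) p - p) := by abel
  rw [e]
  exact Submodule.add_mem_sup (mem_mov.mpr ⟨_, rfl⟩) (mem_mov.mpr ⟨_, rfl⟩)

lemma Vs_self (x : W) : Vs cs x x = ⊥ := by simp [Vs, Mov]

lemma Vs_conj {x y : W} {i : B} {z : B → ℝ} (h : z ∈ Vs cs x y) :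
    rf M (al i) z ∈ Vs cs (x * cs.simple i) (y * cs.simple i) := by
  obtain ⟨p, rfl⟩ := mem_mov.mp h
  refine mem_mov.mpr ⟨rf M (al i) p, ?_⟩
  have : (x * cs.simple i)⁻¹ * (y * cs.simple i) = cs.simple i * ((x⁻¹ * y) * cs.simple i) := by
    simp [mul_assoc]
  rw [this, rho_mul, rho_mul, rho_simple, rf_rf M (bil_al_self M i), map_sub]

variable (cs) in
def Edge (x a : W) (β : B → ℝ) : Prop :=
  ∃ t, Lab cs t β ∧ a = x * t ∧ cs.length a = cs.length x + 1

lemma BCov.edge {x a : W} (h : BCov cs x a) : ∃ β, Edge cs x a β := by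
  obtain ⟨hl, t, ht, rfl⟩ := h
  obtain ⟨β, hβ⟩ := exists_lab ht
  exact ⟨β, t, hβ, rfl, hl⟩

lemma Edge.bcov {x a : W} {β : B → ℝ} (h : Edge cs x a β) : BCov cs x a := by
  obtain ⟨t, h1, h2, h3⟩ := h
  exact ⟨h3, t, h1.refl, h2⟩

lemma Edge.unique {x a a' : W} {β : B → ℝ} (h : Edge cs x a β) (h' : Edge cs x a' β) :
    a = a' := by
  obtain ⟨t, h1, rfl, -⟩ := h
  obtain ⟨t', h1', rfl, -⟩ := h'
  rw [h1.unique h1']

lemma Lab.root_unique {t : W} {β β' : B → ℝ} (h : Lab cs t β) (h' : Lab cs t β') : β = β' := by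
  have e := h.apply_self
  rw [h'.eq, rf_apply] at e
  have e2 : β = (bil M β β') • β' := by
    have : (2 : ℝ) • β = (2 : ℝ) • ((bil M β β') • β') := by
      rw [smul_smul]; linear_combination (norm := module) e
    exact smul_right_injective _ two_ne_zero this
  have e3 := h.root.bil_self
  set c := bil M β β'
  rw [e2] at e3
  simp only [map_smul, LinearMap.smul_apply, h'.root.bil_self, smul_eq_mul, mul_one] at e3
  have p1 := h.root.hgt_pos h.pos
  have p2 := h'.root.hgt_pos h'.pos
  rw [e2, map_smul, smul_eq_mul] at p1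
  have : 0 < c := by nlinarith
  have : c = 1 := by nlinarith
  rw [e2, this, one_smul]

lemma Edge.lab_unique {x a : W} {β β' : B → ℝ} (h : Edge cs x a β) (h' : Edge cs x a β') :
    β = β' := by
  obtain ⟨t, h1, rfl, -⟩ := h
  obtain ⟨t', h1', h2, -⟩ := h'
  rw [← mul_left_cancel h2] at h1'
  exact h1.root_unique h1'

lemma Edge.non {x a : W} {β : B → ℝ} (h : Edge cs x a β) : β ∈ Non cs x := by
  obtain ⟨t, h1, rfl, h3⟩ := h
  exact ⟨h1.root, h1.pos, h1.pos_of_gt (by omega)⟩

lemma Edge.sep {x a : W} {β : B → ℝ} (h : Edge cs x a β) :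
    ∃ g : (B → ℝ) →ₗ[ℝ] ℝ, g β = 0 ∧ ∀ γ ∈ Non cs x, γ ≠ β → g γ < 0 := by
  obtain ⟨t, h1, rfl, h3⟩ := h
  exact exists_sep h1 h3

lemma Edge.vs {x a : W} {β : B → ℝ} (h : Edge cs x a β) : Vs cs x a = ℝ ∙ β := by
  obtain ⟨t, h1, rfl, -⟩ := h
  apply le_antisymm
  · intro z hz
    obtain ⟨p, rfl⟩ := mem_mov.mp hz
    rw [inv_mul_cancel_left, h1.eq, rf_apply, Submodule.mem_span_singleton]
    exact ⟨-(2 * bil M p β), by module⟩
  · rw [Submodule.span_singleton_le_iff_mem]
    refine mem_mov.mpr ⟨(-1 / 2 : ℝ) • β, ?_⟩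
    rw [inv_mul_cancel_left, map_smul, h1.apply_self]; module

lemma Edge.mem_vs {x a : W} {β : B → ℝ} (h : Edge cs x a β) : β ∈ Vs cs x a := by
  rw [h.vs]; exact Submodule.mem_span_singleton_self β

lemma Up.edge {x : W} {i : B} (h : Up cs x i) : Edge cs x (x * cs.simple i) (al i) :=
  ⟨_, lab_simple i, rfl, h⟩

lemma Dn.edge {x : W} {i : B} (h : Dn cs x i) : Edge cs (x * cs.simple i) x (al i) := by
  simpa using h.up.edge

lemma Edge.conj {x a : W} {β : B → ℝ} (h : Edge cs x a β) {i : B} (hi : β ≠ al i)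
    (hl : cs.length (a * cs.simple i) = cs.length (x * cs.simple i) + 1) :
    Edge cs (x * cs.simple i) (a * cs.simple i) (rf M (al i) β) := by
  obtain ⟨t, h1, rfl, -⟩ := h
  exact ⟨_, h1.conj hi, by simp [mul_assoc], hl⟩

lemma Edge.ne_of_dn {x a : W} {β : B → ℝ} (h : Edge cs x a β) {i : B} (hx : Dn cs x i) :
    β ≠ al i := by
  rintro rfl
  exact ((isRoot_al i).map x).not_both h.non.2.2 (neg_of_descent cs hx)

lemma Edge.ne_of_up {x a : W} {β : B → ℝ} (h : Edge cs x a β) {i : B} (ha : Up cs a i) :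
    β ≠ al i := by
  rintro rfl
  obtain ⟨t, h1, rfl, h3⟩ := h
  rw [h1.unique (lab_simple i)] at ha h3
  unfold Up at ha; simp at ha; omega

lemma Edge.dd {x a : W} {β : B → ℝ} (h : Edge cs x a β) {i : B} (hx : Dn cs x i)
    (ha : Dn cs a i) : Edge cs (x * cs.simple i) (a * cs.simple i) (rf M (al i) β) :=
  h.conj (h.ne_of_dn hx) (h.bcov.dd hx ha).1

lemma Edge.uu {x a : W} {β : B → ℝ} (h : Edge cs x a β) {i : B} (hx : Up cs x i)
    (ha : Up cs a i) : Edge cs (x * cs.simple i) (a * cs.simple i) (rf M (al i) β) :=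
  h.conj (h.ne_of_up ha) (h.bcov.uu hx ha).1

lemma rank_le {x y : W} (h : Le cs x y) : finrank ℝ (Vs cs x y) + cs.length x ≤ cs.length y := by
  induction h with
  | refl => simp [Vs_self]
  | @tail b c _ h2 ih =>
    obtain ⟨β, hβ⟩ := h2.edge
    have h3 := Submodule.finrank_mono (Vs_le (cs := cs) x b c)
    have h4 := Submodule.finrank_sup_add_finrank_inf_eq (Vs cs x b) (Vs cs b c)
    have h5 : finrank ℝ (Vs cs b c) ≤ 1 := by
      rw [hβ.vs]; exact (finrank_span_le_card _).trans (by simp)
    have := h2.1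
    omega

variable (cs) in
def Toric (u v : W) : Prop :=
  Le cs u v ∧ finrank ℝ (Vs cs u v) + cs.length u = cs.length v

lemma Toric.split {x y z : W} (h : Toric cs x z) (h1 : Le cs x y) (h2 : Le cs y z) :
    Toric cs x y ∧ Toric cs y z ∧ Vs cs x y ⊔ Vs cs y z = Vs cs x z ∧
      Vs cs x y ⊓ Vs cs y z = ⊥ := by
  have h3 := Submodule.finrank_mono (Vs_le (cs := cs) x y z)
  have h4 := Submodule.finrank_sup_add_finrank_inf_eq (Vs cs x y) (Vs cs y z)
  have h5 := rank_le h1
  have h6 := rank_le h2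
  have h7 := h.2
  refine ⟨⟨h1, by omega⟩, ⟨h2, by omega⟩, ?_, ?_⟩
  · exact (Submodule.eq_of_le_of_finrank_le (Vs_le x y z) (by omega)).symm
  · exact Submodule.finrank_eq_zero.mp (by omega)

lemma Toric.left {x y z : W} (h : Toric cs x z) (h1 : Le cs x y) (h2 : Le cs y z) :
    Toric cs x y := (h.split h1 h2).1

lemma Toric.right {x y z : W} (h : Toric cs x z) (h1 : Le cs x y) (h2 : Le cs y z) :
    Toric cs y z := (h.split h1 h2).2.1

lemma Toric.le_left {x y z : W} (h : Toric cs x z) (h1 : Le cs x y) (h2 : Le cs y z) :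
    Vs cs x y ≤ Vs cs x z := (h.split h1 h2).2.2.1 ▸ le_sup_left

lemma Toric.le_right {x y z : W} (h : Toric cs x z) (h1 : Le cs x y) (h2 : Le cs y z) :
    Vs cs y z ≤ Vs cs x z := (h.split h1 h2).2.2.1 ▸ le_sup_right

lemma Toric.disj {x y z : W} (h : Toric cs x z) (h1 : Le cs x y) (h2 : Le cs y z)
    {k : B → ℝ} (k1 : k ∈ Vs cs x y) (k2 : k ∈ Vs cs y z) : k = 0 := by
  have : k ∈ Vs cs x y ⊓ Vs cs y z := ⟨k1, k2⟩
  rwa [(h.split h1 h2).2.2.2, Submodule.mem_bot] at this

lemma Toric.dd {u v : W} {i : B} (h : Toric cs u v) (hu : Dn cs u i) (hv : Dn cs v i) :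
    Toric cs (u * cs.simple i) (v * cs.simple i) := by
  refine ⟨h.1.dd hu hv, le_antisymm (rank_le (h.1.dd hu hv)) ?_⟩
  have hinj : Function.Injective (rf M (al i)) := fun a b hab => by
    have := congrArg (rf M (al i)) hab
    rwa [rf_rf M (bil_al_self M i), rf_rf M (bil_al_self M i)] at this
  have h1 : (Vs cs u v).map (rf M (al i)) ≤ Vs cs (u * cs.simple i) (v * cs.simple i) := by
    rintro _ ⟨z, hz, rfl⟩; exact Vs_conj hz
  have h2 := Submodule.finrank_mono h1
  have h3 := (Submodule.equivMapOfInjective _ hinj (Vs cs u v)).finrank_eq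
  have := h.2
  unfold Dn at hu hv
  omega

variable (cs) in
def At (u v : W) : Set (B → ℝ) := {β | ∃ a, Edge cs u a β ∧ Le cs a v}

variable (cs) in
def K (u v : W) : (B → ℝ) → Prop := InCone (At cs u v)

lemma K.of {u v a : W} {β : B → ℝ} (he : Edge cs u a β) (hav : Le cs a v) : K cs u v β :=
  InCone.of_mem (S := At cs u v) ⟨a, he, hav⟩

lemma K.smul {u v : W} {k : B → ℝ} (h : K cs u v k) {c : ℝ} (hc : 0 ≤ c) : K cs u v (c • k) :=
  InCone.smul h hc

lemma K.mono {u v v' : W} {k : B → ℝ} (h : K cs u v k) (hv : Le cs v v') : K cs u v' k := by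
  refine InCone.mono (S := At cs u v) ?_ h
  rintro _ ⟨a, h1, h2⟩
  exact ⟨a, h1, h2.trans hv⟩

lemma K.nonneg {u v : W} {k : B → ℝ} (h : K cs u v k) : 0 ≤ k := by
  refine InCone.ind (S := At cs u v) (P := fun k => (0 : B → ℝ) ≤ k) le_rfl ?_
    (fun _ _ => add_nonneg) (fun _ _ h1 h2 => smul_nonneg h1 h2) h
  rintro _ ⟨_, h1, _⟩
  exact h1.non.2.1

lemma K.mem {u v : W} {k : B → ℝ} (h : K cs u v k) (ht : Toric cs u v) : k ∈ Vs cs u v := by
  refine InCone.mem (S := At cs u v) ?_ h
  rintro _ ⟨_, h1, h2⟩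
  exact ht.le_left h1.bcov.le h2 h1.mem_vs

lemma K.ext {u v a : W} {β : B → ℝ} (h : K cs u v β) (he : Edge cs u a β) : Le cs a v := by
  obtain ⟨g, g0, g1⟩ := he.sep
  rcases InCone.cases' h with h0 | ⟨k, γ, c, hk, ⟨b, hb, hbv⟩, hc, e⟩
  · exact (he.non.1.ne_zero h0).elim
  · have hk' : g k ≤ 0 := hk.nonpos g fun δ hδ' => by
      obtain ⟨_, hd, _⟩ := hδ'
      by_cases hδ : δ = β
      · rw [hδ, g0]
      · exact (g1 δ hd.non hδ).le
    by_cases hγ : γ = β
    · subst hγ; rw [he.unique hb]; exact hbv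
    · exfalso
      have := g1 γ hb.non hγ
      rw [e, map_add, map_smul, smul_eq_mul] at g0
      nlinarith

variable (cs) in
def Star (u v : W) : Prop := ∀ a β, Edge cs u a β → Le cs a v → ∀ k, K cs u v k →
  ∃ (μ : ℝ) (k' : B → ℝ), K cs a v k' ∧ k = μ • β + k'

variable (cs) in
def Mp (u v : W) : Prop := ∀ a β y, Edge cs u a β → Le cs a v → Le cs u y → Le cs y v →
  β ∈ Vs cs u y → Le cs a y

lemma decomp {v y : W} (hs : ∀ x, Toric cs x v → Star cs x v) (hyv : Le cs y v) {x : W}
    (hxy : Le cs x y) : Toric cs x v → ∀ k, K cs x v k →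
      ∃ k0 k1, k0 ∈ Vs cs x y ∧ K cs y v k1 ∧ k = k0 + k1 := by
  induction hxy using Relation.ReflTransGen.head_induction_on with
  | refl => intro _ k hk; exact ⟨0, k, Submodule.zero_mem _, hk, by simp⟩
  | @head x a h1 h2 ih =>
    intro ht k hk
    have h2' : Le cs a y := h2
    obtain ⟨β, hβ⟩ := h1.edge
    obtain ⟨μ, k', hk', rfl⟩ := hs x ht a β hβ (h2'.trans hyv) k hk
    obtain ⟨k0, k1, a0, a1, rfl⟩ := ih (ht.right h1.le (h2'.trans hyv)) k' hk'
    have ht' := ht.left (h1.le.trans h2') hyv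
    exact ⟨μ • β + k0, k1, Submodule.add_mem _
      (Submodule.smul_mem _ _ (ht'.le_left h1.le h2' hβ.mem_vs)) (ht'.le_right h1.le h2' a0), a1,
      by abel⟩

lemma face {v y x : W} (hs : ∀ x, Toric cs x v → Star cs x v) (hyv : Le cs y v)
    (hxy : Le cs x y) (ht : Toric cs x v) {k k' : B → ℝ} (hk : K cs x v k) (hk' : K cs x v k')
    (h : k + k' ∈ Vs cs x y) : k ∈ Vs cs x y := by
  obtain ⟨a0, a1, a2, a3, rfl⟩ := decomp hs hyv hxy ht k hk
  obtain ⟨b0, b1, b2, b3, rfl⟩ := decomp hs hyv hxy ht k' hk'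
  have h1 : a1 + b1 ∈ Vs cs x y := by
    have := Submodule.sub_mem _ h (Submodule.add_mem _ a2 b2)
    convert this using 1; abel
  have h2 : a1 + b1 = 0 := ht.disj hxy hyv h1
    (Submodule.add_mem _ (a3.mem (ht.right hxy hyv)) (b3.mem (ht.right hxy hyv)))
  have h3 : a1 = 0 := le_antisymm (by
    have := b3.nonneg
    calc a1 ≤ a1 + b1 := le_add_of_nonneg_right this
      _ = 0 := h2) a3.nonneg
  rw [h3, add_zero]; exact a2

lemma non_conj {x : W} {i : B} {γ : B → ℝ} (h : γ ∈ Non cs x) (hne : γ ≠ al i) :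
    rf M (al i) γ ∈ Non cs (x * cs.simple i) := by
  refine ⟨?_, simple_pos h.1 h.2.1 hne, ?_⟩
  · rw [← rho_simple cs]; exact h.1.map _
  · rw [rho_mul, rho_simple, rf_rf M (bil_al_self M i)]; exact h.2.2

lemma plane {u b : W} {i : B} {β : B → ℝ} (hu : Dn cs u i) (hb : Up cs b i)
    (he : Edge cs u b β) (ht : Toric cs (u * cs.simple i) b) :
    ∃ a β', ∃ p q : ℝ, Edge cs (u * cs.simple i) a β' ∧ Le cs a b ∧ 0 ≤ p ∧ 0 < q ∧
      rf M (al i) β = p • β' + q • al i := by
  obtain ⟨a, hne, h1, h2⟩ := diamond _ rfl hu.bcov he.bcov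
  obtain ⟨β', hβ'⟩ := h1.edge
  have hmem : β' ∈ Vs cs (u * cs.simple i) u ⊔ Vs cs u b := by
    rw [(ht.split hu.bcov.le he.bcov.le).2.2.1]
    exact ht.le_left h1.le h2.le hβ'.mem_vs
  rw [hu.edge.vs, he.vs, Submodule.mem_sup] at hmem
  obtain ⟨y, hy, z, hz, hyz⟩ := hmem
  obtain ⟨p, rfl⟩ := Submodule.mem_span_singleton.mp hy
  obtain ⟨q, rfl⟩ := Submodule.mem_span_singleton.mp hz
  set δ := rf M (al i) β with hδ
  have hδn : δ ∈ Non cs (u * cs.simple i) := non_conj he.non (he.ne_of_dn hu)
  have e1 : β' = (p + q * (2 * bil M β (al i))) • al i + q • δ := by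
    rw [← hyz, hδ, rf_apply]; module
  set p' := p + q * (2 * bil M β (al i))
  have n1 : al i ≠ β' := by
    intro h; rw [← h] at hβ'; exact hne (hβ'.unique hu.edge)
  have n2 : δ ≠ β' := by
    intro h
    obtain ⟨t, t1, t2, t3⟩ := he
    obtain ⟨t', t1', t2', t3'⟩ := hβ'
    have := (t1.conj (Edge.ne_of_dn ⟨t, t1, t2, t3⟩ hu)).unique (by rw [← hδ, h]; exact t1')
    have e : a = b * cs.simple i := by rw [t2', ← this, t2]; simp [mul_assoc]
    unfold Up at hb; unfold Dn at hu
    rw [← e] at hb; omega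
  have n3 : δ ≠ al i := by
    intro h
    have : β = -al i := by
      rw [← rf_rf M (bil_al_self M i) β, ← hδ, h, rf_al_self]
    exact he.non.1.not_both he.non.2.1 (by rw [this]; exact neg_nonpos.mpr (al_nonneg i))
  obtain ⟨g, g0, g1⟩ := hβ'.sep
  obtain ⟨f, f0, f1⟩ := hu.edge.sep
  have ga := g1 _ hu.edge.non n1
  have gd := g1 _ hδn n2
  have fb := f1 _ hβ'.non n1.symm
  have fd := f1 _ hδn n3
  rw [e1, map_add, map_smul, map_smul, smul_eq_mul, smul_eq_mul] at g0 fb
  rw [f0] at fb
  have hq : 0 < q := by nlinarith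
  have hp : p' < 0 := by nlinarith
  refine ⟨a, β', q⁻¹, -p' / q, hβ', h2.le, by positivity, div_pos (by linarith) hq, ?_⟩
  rw [e1, smul_add, smul_smul, smul_smul, inv_mul_cancel₀ hq.ne', one_smul]
  have : q⁻¹ * p' = -(-p' / q) := by field_simp
  rw [this]; module

lemma lemE {u v : W} {i : B} (hv : Dn cs v i) (huv : Le cs u (v * cs.simple i))
    (hs : Dn cs u i → Star cs (u * cs.simple i) (v * cs.simple i)) {k : B → ℝ}
    (hk : K cs u v k) :
    ∃ k1, ∃ l : ℝ, K cs u (v * cs.simple i) k1 ∧ 0 ≤ l ∧ k = k1 + l • al i := by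
  refine InCone.ind (P := fun k => ∃ k1, ∃ l : ℝ, K cs u (v * cs.simple i) k1 ∧ 0 ≤ l ∧
    k = k1 + l • al i) ⟨0, 0, InCone.zero, le_rfl, by simp⟩ ?_ ?_ ?_ hk
  · rintro β ⟨e, he, hev⟩
    rcases up_or_dn (cs := cs) e i with h1 | h1
    · exact ⟨β, 0, InCone.of_mem ⟨e, he, hev.ud2 h1 hv⟩, le_rfl, by simp⟩
    rcases up_or_dn (cs := cs) u i with hu | hu
    · have := he.bcov.ud hu h1
      subst this
      exact ⟨0, 1, InCone.zero, zero_le_one, by simp [he.lab_unique hu.edge]⟩
    have he' := he.dd hu h1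
    obtain ⟨μ, k', hk', e1⟩ := hs hu u (al i) hu.edge huv _
      (InCone.of_mem ⟨_, he', hev.dd h1 hv⟩)
    have e2 : β = k' + (μ + 2 * bil M β (al i)) • al i := by
      rw [rf_apply] at e1
      rw [add_smul]; linear_combination (norm := module) e1
    refine ⟨k', _, hk', ?_, e2⟩
    by_contra hneg
    push Not at hneg
    obtain ⟨g, g0, g1⟩ := he'.sep
    have n1 : al i ≠ rf M (al i) β := by
      intro h
      rw [← h] at he'
      have := he'.unique hu.edge
      have l1 := he.bcov.1
      unfold Dn at h1 hu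
      have : e = u * cs.simple i := by rw [← this]; simp
      rw [← this] at hu; omega
    have ga := g1 _ hu.edge.non n1
    have gk : g (rf M (al i) k') ≤ 0 := by
      refine InCone.nonpos (g ∘ₗ rf M (al i)) ?_ hk'
      rintro γ ⟨a, ha, -⟩
      by_cases hγ : rf M (al i) γ = rf M (al i) β
      · simp [hγ, g0]
      · exact (g1 _ (non_conj ha.non (ha.ne_of_dn hu)) hγ).le
    rw [e2, map_add, map_smul, rf_al_self, map_add, map_smul, map_neg, smul_eq_mul] at g0
    nlinarith
  · rintro a b ⟨k1, l1, a1, a2, rfl⟩ ⟨k2, l2, b1, b2, rfl⟩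
    exact ⟨k1 + k2, l1 + l2, InCone.add a1 b1, add_nonneg a2 b2, by module⟩
  · rintro c a hc ⟨k1, l1, a1, a2, rfl⟩
    exact ⟨c • k1, c * l1, InCone.smul a1 hc, mul_nonneg hc a2, by module⟩

lemma lemD {u v : W} {i : B} (hu : Dn cs u i) (hv : Dn cs v i) (ht : Toric cs u v)
    {k : B → ℝ} (hk : K cs u v k) :
    K cs (u * cs.simple i) (v * cs.simple i) (rf M (al i) k) := by
  refine InCone.map _ ?_ hk
  rintro β ⟨e, he, hev⟩
  rcases up_or_dn (cs := cs) e i with h1 | h1
  · have h2 := hev.ud2 h1 hv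
    obtain ⟨a, β', p, q, h3, h4, h5, h6, h7⟩ := plane hu h1 he
      ((ht.dd hu hv).left (hu.bcov.le.trans he.bcov.le) h2)
    rw [h7]
    exact InCone.add ((K.of h3 (h4.trans h2)).smul h5)
      ((K.of hu.edge (he.bcov.le.trans h2)).smul h6.le)
  · exact InCone.of_mem ⟨_, he.dd hu h1, hev.dd h1 hv⟩

lemma lemB {a v : W} {i : B} (ha : Dn cs a i) (hv : Dn cs v i) {k : B → ℝ}
    (hk : K cs (a * cs.simple i) (v * cs.simple i) k) :
    ∃ y, ∃ n : ℝ, K cs a v y ∧ 0 ≤ n ∧ rf M (al i) k = y - n • al i ∧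
      (¬ Le cs a (v * cs.simple i) → n = 0) := by
  refine InCone.ind (P := fun k => ∃ y, ∃ n : ℝ, K cs a v y ∧ 0 ≤ n ∧
    rf M (al i) k = y - n • al i ∧ (¬ Le cs a (v * cs.simple i) → n = 0))
    ⟨0, 0, InCone.zero, le_rfl, by simp, fun _ => rfl⟩ ?_ ?_ ?_ hk
  · rintro γ ⟨e, he, hev⟩
    rcases up_or_dn (cs := cs) e i with h1 | h1
    · refine ⟨_, 0, InCone.of_mem ⟨e * cs.simple i, by simpa using he.uu ha.up h1,
        by simpa using hev.uu h1 hv.up⟩, le_rfl, by simp, fun _ => rfl⟩
    · have : e = a := by simpa using he.bcov.ud ha.up h1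
      subst this
      refine ⟨0, 1, InCone.zero, zero_le_one, ?_, fun h => (h hev).elim⟩
      rw [he.lab_unique ha.edge, rf_al_self]; simp
  · rintro _ _ ⟨k1, l1, a1, a2, a3, a4⟩ ⟨k2, l2, b1, b2, b3, b4⟩
    refine ⟨k1 + k2, l1 + l2, InCone.add a1 b1, add_nonneg a2 b2, ?_,
      fun h => by rw [a4 h, b4 h, add_zero]⟩
    rw [map_add, a3, b3]; module
  · rintro c _ hc ⟨k1, l1, a1, a2, a3, a4⟩
    refine ⟨c • k1, c * l1, InCone.smul a1 hc, mul_nonneg hc a2, ?_,
      fun h => by rw [a4 h, mul_zero]⟩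
    rw [map_smul, a3]; module

lemma coef_zero {u v : W} {i : B} (hv : Dn cs v i) (ht : Toric cs u v)
    (huv : Le cs u (v * cs.simple i)) {c : ℝ} (h : c • al i ∈ Vs cs u (v * cs.simple i)) :
    c = 0 := by
  have := ht.disj huv hv.bcov.le h (Submodule.smul_mem _ _ hv.edge.mem_vs)
  exact (smul_eq_zero.mp this).resolve_right (isRoot_al (cs := cs) i).ne_zero

lemma star_step {u v : W} {i : B} (hv : Dn cs v i) (ht : Toric cs u v)
    (ih : ∀ x, Toric cs x (v * cs.simple i) → Star cs x (v * cs.simple i)) : Star cs u v := by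
  intro a β he hav k hk
  rcases up_or_dn (cs := cs) a i with ha | ha
  · have h1 := hav.ud2 ha hv
    have h2 := he.bcov.le.trans h1
    obtain ⟨k1, l, a1, a2, rfl⟩ := lemE hv h2 (fun hu => ih _ (ht.dd hu hv)) hk
    obtain ⟨μ, k', b1, rfl⟩ := ih u (ht.left h2 hv.bcov.le) a β he h1 k1 a1
    exact ⟨μ, k' + l • al i, InCone.add (b1.mono hv.bcov.le)
      ((K.of ha.edge (hav.ud1 ha hv)).smul a2), by abel⟩
  rcases up_or_dn (cs := cs) u i with hu | hu
  · have := he.bcov.ud hu ha
    subst this
    rw [he.lab_unique hu.edge]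
    refine InCone.ind (P := fun k => ∃ (μ : ℝ) (k' : B → ℝ),
      K cs (u * cs.simple i) v k' ∧ k = μ • al i + k') ⟨0, 0, InCone.zero, by simp⟩ ?_ ?_ ?_ hk
    · rintro γ ⟨e, he', hev⟩
      rcases up_or_dn (cs := cs) e i with h1 | h1
      · refine ⟨2 * bil M γ (al i), _, InCone.of_mem ⟨_, he'.uu hu h1, hev.ud1 h1 hv⟩, ?_⟩
        rw [rf_apply]; module
      · have := he'.bcov.ud hu h1
        subst this
        exact ⟨1, 0, InCone.zero, by simp [he'.lab_unique hu.edge]⟩
    · rintro _ _ ⟨m1, k1, a1, rfl⟩ ⟨m2, k2, b1, rfl⟩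
      exact ⟨m1 + m2, k1 + k2, InCone.add a1 b1, by module⟩
    · rintro c _ hc ⟨m1, k1, a1, rfl⟩
      exact ⟨c * m1, c • k1, InCone.smul a1 hc, by module⟩
  · have ht' := ht.dd hu hv
    obtain ⟨μ, k', b1, b2⟩ := ih _ ht' _ _ (he.dd hu ha) (hav.dd ha hv) _ (lemD hu hv ht hk)
    obtain ⟨y, n, c1, c2, c3, c4⟩ := lemB ha hv b1
    have e1 : k = μ • β + (y - n • al i) := by
      rw [← rf_rf M (bil_al_self M i) k, b2, map_add, map_smul, rf_rf M (bil_al_self M i), c3]
    refine ⟨μ, _, ?_, e1⟩
    by_cases hle : Le cs a (v * cs.simple i)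
    swap
    · rw [c4 hle]; simpa using c1
    have h2 := he.bcov.le.trans hle
    have hta := ht.right he.bcov.le hav
    obtain ⟨k2, l2, d1, d2, d3⟩ := lemE hv h2 (fun _ => ih _ ht') hk
    obtain ⟨k1, l1, f1, f2, f3⟩ := lemE hv hle (fun _ => ih _ (hta.dd ha hv)) c1
    have htu := ht.left h2 hv.bcov.le
    have hz : l1 - n - l2 = 0 := by
      apply coef_zero hv ht h2
      have : (l1 - n - l2) • al i = k2 - μ • β - k1 := by
        rw [d3, f3] at e1
        rw [sub_smul, sub_smul]; linear_combination (norm := module) -e1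
      rw [this]
      exact Submodule.sub_mem _ (Submodule.sub_mem _ (d1.mem htu)
        (Submodule.smul_mem _ _ (htu.le_left he.bcov.le hle he.mem_vs)))
        (htu.le_right he.bcov.le hle (f1.mem (htu.right he.bcov.le hle)))
    rcases f2.eq_or_lt with h0 | h0
    · have : n = 0 := by linarith
      rw [this]; simpa using c1
    · have : y - n • al i = (l2 / l1) • y + (n / l1) • k1 := by
        have e : l2 = l1 - n := by linarith
        rw [f3, e]
        match_scalars <;> field_simp <;> ring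
      rw [this]
      exact InCone.add (InCone.smul c1 (by positivity))
        (InCone.smul (f1.mono hv.bcov.le) (by positivity))

lemma mp_coatom {u v : W} {i : B} (hv : Dn cs v i) (ht : Toric cs u v)
    (ih : ∀ x, Toric cs x (v * cs.simple i) → Star cs x (v * cs.simple i))
    (ihm : ∀ x, Toric cs x (v * cs.simple i) → Mp cs x (v * cs.simple i))
    {a y : W} {β : B → ℝ} (he : Edge cs u a β) (hav : Le cs a v) (huy : Le cs u y)
    (hyv : BCov cs y v) (hβ : β ∈ Vs cs u y) : Le cs a y := by
  rcases up_or_dn (cs := cs) y i with hy | hy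
  · have : y = v * cs.simple i := by rw [hyv.ud hy hv]; simp
    subst this
    obtain ⟨k1, l, a1, -, a3⟩ := lemE hv huy (fun hu => ih _ (ht.dd hu hv))
      (InCone.of_mem ⟨a, he, hav⟩)
    have : l = 0 := by
      apply coef_zero hv ht huy
      have : l • al i = β - k1 := by rw [a3]; abel
      rw [this]
      exact Submodule.sub_mem _ hβ (a1.mem (ht.left huy hv.bcov.le))
    rw [this, zero_smul, add_zero] at a3
    exact K.ext (a3 ▸ a1) he
  have hy' := (hyv.dd hy hv).le
  rcases up_or_dn (cs := cs) a i with ha | ha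
  · have h1 := hav.ud2 ha hv
    have h2 := he.bcov.le.trans h1
    have h3 : Le cs u (y * cs.simple i) := by
      rcases up_or_dn (cs := cs) u i with hu | hu
      · exact huy.ud2 hu hy
      · have ht' := ht.dd hu hv
        obtain ⟨a', β', p, q, c1, c2, c3, c4, c5⟩ := plane hu ha he
          (ht'.left (hu.bcov.le.trans he.bcov.le) h1)
        have c6 := Vs_conj (i := i) hβ
        rw [c5, add_comm] at c6
        have c7 := face ih hy' (huy.dd hu hy) ht'
          ((K.of hu.edge h2).smul c4.le)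
          ((K.of c1 (c2.trans h1)).smul c3) c6
        exact ihm _ ht' u _ _ hu.edge h2 (huy.dd hu hy) hy'
          ((Submodule.smul_mem_iff _ c4.ne').mp c7)
    have htu := ht.left h2 hv.bcov.le
    have hty := ht.left huy hyv.le
    rw [← (hty.split h3 hy.bcov.le).2.2.1, hy.edge.vs, Submodule.mem_sup] at hβ
    obtain ⟨z, hz, w, hw, hzw⟩ := hβ
    obtain ⟨c, rfl⟩ := Submodule.mem_span_singleton.mp hw
    have : c = 0 := by
      apply coef_zero hv ht h2
      have : c • al i = β - z := by rw [← hzw]; abel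
      rw [this]
      exact Submodule.sub_mem _ (htu.le_left he.bcov.le h1 he.mem_vs) (htu.le_left h3 hy' hz)
    rw [this, zero_smul, add_zero] at hzw
    exact (ihm _ htu a β _ he h1 h3 hy' (hzw ▸ hz)).trans hy.bcov.le
  · rcases up_or_dn (cs := cs) u i with hu | hu
    · rw [he.bcov.ud hu ha]; exact huy.ud1 hu hy
    · have := ihm _ (ht.dd hu hv) _ _ _ (he.dd hu ha) (hav.dd ha hv) (huy.dd hu hy) hy'
        (Vs_conj hβ)
      simpa using this.uu ha.up hy.up

lemma star_mp : ∀ (n : ℕ) (v : W), cs.length v = n → ∀ u, Toric cs u v →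
    Star cs u v ∧ Mp cs u v := by
  intro n
  induction n using Nat.strong_induction_on with
  | _ n ih =>
  intro v hn u ht
  by_cases h1 : v = 1
  · subst h1
    constructor
    · intro a β he hav
      have l1 := he.bcov.1; have l2 := hav.len; rw [length_one] at l2; omega
    · intro a β y he hav
      have l1 := he.bcov.1; have l2 := hav.len; rw [length_one] at l2; omega
  obtain ⟨i, hi⟩ := cs.exists_rightDescent_of_ne_one h1
  rw [isRightDescent_iff] at hi
  have hv : Dn cs v i := hi
  have ih1 := fun x hx => (ih _ (by omega) (v * cs.simple i) rfl x hx).1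
  have ih2 := fun x hx => (ih _ (by omega) (v * cs.simple i) rfl x hx).2
  refine ⟨star_step hv ht ih1, ?_⟩
  intro a β y he hav huy hyv hβ
  by_cases hy : y = v
  · rw [hy]; exact hav
  obtain ⟨y1, h2, h3⟩ := hyv.tail hy
  have ht1 := ht.left (huy.trans h2) h3.le
  have h4 := mp_coatom hv ht ih1 ih2 he hav (huy.trans h2) h3 (ht1.le_left huy h2 hβ)
  exact (ih _ (by have := h3.1; omega) y1 rfl u ht1).2 a β y he h4 huy h2 hβ

lemma exists_J {v : W} : ∀ (n : ℕ) (u : W), cs.length v = cs.length u + n → Toric cs u v →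
    ∀ k, K cs u v k → ∃ y0, Le cs u y0 ∧ Le cs y0 v ∧
      ∀ y, Le cs u y → Le cs y v → (k ∈ Vs cs u y ↔ Le cs y0 y) := by
  have hs : ∀ x, Toric cs x v → Star cs x v := fun x hx => (star_mp _ v rfl x hx).1
  intro n
  induction n using Nat.strong_induction_on with
  | _ n ih =>
  intro u hn ht k hk
  rcases InCone.cases' hk with rfl | ⟨k0, β, c, hk0, ⟨a, he, hav⟩, hc, e⟩
  · exact ⟨u, Le.refl u, ht.1, fun y h1 _ => ⟨fun _ => h1, fun _ => Submodule.zero_mem _⟩⟩
  obtain ⟨μ, k', hk', e'⟩ := hs u ht a β he hav k hk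
  have hta := ht.right he.bcov.le hav
  have l1 := he.bcov.1
  have l2 := hav.len
  obtain ⟨y0, a1, a2, a3⟩ := ih (n - 1) (by omega) a (by omega) hta k' hk'
  refine ⟨y0, he.bcov.le.trans a1, a2, fun y h1 h2 => ⟨fun h => ?_, fun h => ?_⟩⟩
  · have hb : β ∈ Vs cs u y := by
      rw [e, add_comm] at h
      exact (Submodule.smul_mem_iff _ hc.ne').mp
        (face hs h2 h1 ht ((K.of he hav).smul hc.le) hk0 h)
    have hay := (star_mp _ v rfl u ht).2 a β y he hav h1 h2 hb
    rw [← a3 y hay h2]
    have hty := ht.left h1 h2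
    rw [← (hty.split he.bcov.le hay).2.2.1, Submodule.mem_sup] at h
    obtain ⟨p, hp, q, hq, hpq⟩ := h
    have : k' - q = 0 := by
      apply ht.disj he.bcov.le hav
      · have : k' - q = p - μ • β := by
          rw [e'] at hpq; linear_combination (norm := module) -hpq
        rw [this]
        exact Submodule.sub_mem _ hp (Submodule.smul_mem _ _ he.mem_vs)
      · exact Submodule.sub_mem _ (hk'.mem hta) (hta.le_left hay h2 hq)
    rw [sub_eq_zero.mp this]; exact hq
  · have hay := a1.trans h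
    have hty := ht.left h1 h2
    rw [e']
    exact Submodule.add_mem _ (Submodule.smul_mem _ _ (hty.le_left he.bcov.le hay he.mem_vs))
      (hty.le_right he.bcov.le hay ((a3 y hay h2).mpr h))

lemma atom_join {u v a b : W} (ht : Toric cs u v) (ha : BCov cs u a) (hav : Le cs a v)
    (hb : BCov cs u b) (hbv : Le cs b v) :
    ∃ j, Le cs a j ∧ Le cs b j ∧ Le cs j v ∧
      ∀ y, Le cs a y → Le cs b y → Le cs y v → Le cs j y := by
  have hs : ∀ x, Toric cs x v → Star cs x v := fun x hx => (star_mp _ v rfl x hx).1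
  have hm := (star_mp _ v rfl u ht).2
  obtain ⟨α, hα⟩ := ha.edge
  obtain ⟨β, hβ⟩ := hb.edge
  have k1 : K cs u v α := InCone.of_mem ⟨a, hα, hav⟩
  have k2 : K cs u v β := InCone.of_mem ⟨b, hβ, hbv⟩
  obtain ⟨j, j1, j2, j3⟩ := exists_J (cs.length v - cs.length u) u
    (by have := ht.1.len; omega) ht _ (InCone.add k1 k2)
  have h := (j3 j j1 j2).mpr (Le.refl j)
  refine ⟨j, hm a α j hα hav j1 j2 (face hs j2 j1 ht k1 k2 h),
    hm b β j hβ hbv j1 j2 (face hs j2 j1 ht k2 k1 (by rwa [add_comm])), j2, ?_⟩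
  intro y h1 h2 h3
  have hty := ht.left (ha.le.trans h1) h3
  exact (j3 y (ha.le.trans h1) h3).mp (Submodule.add_mem _
    (hty.le_left ha.le h1 hα.mem_vs) (hty.le_left hb.le h2 hβ.mem_vs))

end Pool.Agent.MP_8f5299_co

end
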